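import Pool.Agent.TH308.HHp.LevInd

/-!
The exceptional forms, for every power of the characteristic.
-/

set_option autoImplicit false
set_option linter.unusedSectionVars false

universe u

namespace Pool.Agent.TH308.HHp

open MvPolynomial Pool.Agent.H737R3 Pool.Agent.H737R3.Cont Pool.Agent.Chud Pool.Agent.TH501.HHF

section

variable {k : Type u} [Field k] (p : ℕ) [Fact p.Prime] [CharP k p] [PerfectRing k p] {n s : ℕ}

theorem structE [Infinite k] (E1 : ℕ) (P : Fin s → Fin (n + 1) → k)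
    (hP : ∀ i, P i ≠ 0) (hn : 2 ≤ n) : ∀ (d : ℕ) (W : Fin s → ℕ)
    (F : MvPolynomial (Fin (n + 1)) k), F ≠ 0 →
    F.IsHomogeneous d → p ^ E1 ≤ d → (∀ i, F ∈ mI (P i) ^ (p ^ E1 * W i)) →
    F ∈ irr k n ^ (p ^ E1) * (⨅ i, linI (P i) ^ (W i - (n - 1))) ^ (p ^ E1) ∨
    ∃ H G ψ : MvPolynomial (Fin (n + 1)) k, F = H ^ (p ^ E1) * G ∧
      (∀ π, Prime π → ¬ π ^ (p ^ E1) ∣ G) ∧ p ^ E1 * n ≤ G.totalDegree ∧
      ψ ≠ 0 ∧ ψ.IsHomogeneous (d % p ^ E1) ∧ G ∣ ψ ^ (p ^ E1 - 1) := by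
  intro d
  induction d using Nat.strong_induction_on with
  | _ d ih =>
  intro W F hF0 hFd hpd hF
  have hp0 : 0 < p ^ E1 := Nat.pow_pos (Fact.out : p.Prime).pos
  by_cases hfree : ∀ π, Prime π → ¬ π ^ (p ^ E1) ∣ F
  · by_cases hW : ∀ i, W i ≤ n - 1
    · left
      have h1 : (⨅ i, linI (P i) ^ (W i - (n - 1))) = ⊤ := by
        rw [iInf_eq_top]
        intro i
        rw [Nat.sub_eq_zero_of_le (hW i), pow_zero, Ideal.one_eq_top]
      rw [h1, Ideal.top_pow, Ideal.mul_top]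
      exact mem_irr_pow hFd hpd
    push Not at hW
    obtain ⟨i0, hi0⟩ := hW
    by_cases hnot : F ∈ irr k n ^ (p ^ E1) * (⨅ i, linI (P i) ^ (W i - (n - 1))) ^ (p ^ E1)
    · exact Or.inl hnot
    right
    obtain ⟨ψ, E, hψ0, hψh, hE⟩ := mlE p E1 P hP W hn hF0 hFd hF
      (Nat.div_add_mod d (p ^ E1)).symm (Nat.mod_lt _ hp0) hnot
    refine ⟨1, F, ψ, by rw [one_pow, one_mul], hfree, ?_, hψ0, hψh, ?_⟩
    · have h4 := (mem_mI_pow_iff (P i0) hF0 _).1 (hF i0)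
      have h5 := mu_le_totalDegree (P i0) hF0
      have h6 : p ^ E1 * n ≤ p ^ E1 * W i0 := Nat.mul_le_mul_left _ (by omega)
      omega
    · exact dvd_pow_pred hF0 (by rw [Nat.sub_add_cancel hp0]; exact hfree) hE
  push Not at hfree
  obtain ⟨π, hπ, F', hF'⟩ := hfree
  have hπ0 : π ≠ 0 := hπ.ne_zero
  have hF'0 : F' ≠ 0 := by
    rintro rfl
    rw [mul_zero] at hF'
    exact hF0 hF'
  have hπF : π ∣ F := (dvd_pow_self π hp0.ne').trans ⟨F', hF'⟩
  have hπh : π.IsHomogeneous π.totalDegree := homog_of_dvd hFd hF0 hπF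
  have hF'h : F'.IsHomogeneous F'.totalDegree :=
    homog_of_dvd hFd hF0 ⟨π ^ (p ^ E1), by rw [hF', mul_comm]⟩
  have hπ1 : 1 ≤ π.totalDegree := by
    by_contra hcon
    have h1 : π.totalDegree = 0 := by omega
    apply hπ.not_isUnit
    have h2 := totalDegree_eq_zero_iff_eq_C.1 h1
    have h3 : coeff 0 π ≠ 0 := by
      intro h4
      rw [h4, C_0] at h2
      exact hπ0 h2
    rw [h2]
    exact (isUnit_iff_ne_zero.2 h3).map C
  have hdeg : d = p ^ E1 * π.totalDegree + F'.totalDegree := by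
    have h1 := hFd.totalDegree hF0
    have h2 := (hπh.pow (p ^ E1)).totalDegree (pow_ne_zero _ hπ0)
    rw [hF', totalDegree_mul_of_isDomain (pow_ne_zero _ hπ0) hF'0, h2] at h1
    rw [← h1, mul_comm (p ^ E1)]
  have hmu : ∀ i, mu (P i) F = p ^ E1 * mu (P i) π + mu (P i) F' := by
    intro i
    rw [hF', mu_mul _ (pow_ne_zero _ hπ0) hF'0, Pool.Agent.H580C.BL_mu_pow _ hπ0]
  have hord : ∀ i, p ^ E1 * (W i - mu (P i) π) ≤ mu (P i) F' := by
    intro i
    have h1 := (mem_mI_pow_iff (P i) hF0 _).1 (hF i)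
    rw [hmu i] at h1
    rw [Nat.mul_sub]
    omega
  have hF'm : ∀ i, F' ∈ mI (P i) ^ (p ^ E1 * (W i - mu (P i) π)) :=
    fun i => (mem_mI_pow_iff (P i) hF'0 _).2 (hord i)
  have hpπ : p ^ E1 * 1 ≤ p ^ E1 * π.totalDegree := Nat.mul_le_mul_left _ hπ1
  rcases Nat.lt_or_ge F'.totalDegree (p ^ E1) with hlt | hge
  · -- the other factor has small degree
    left
    have h1 : ∀ i, π ∈ mI (P i) ^ (W i) := by
      intro i
      rw [mem_mI_pow_iff (P i) hπ0]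
      by_contra hcon
      push Not at hcon
      have h2 : 1 ≤ W i - mu (P i) π := by omega
      have h3 : p ^ E1 * 1 ≤ p ^ E1 * (W i - mu (P i) π) := Nat.mul_le_mul_left _ h2
      have h4 := hord i
      have h5 := mu_le_totalDegree (P i) hF'0
      omega
    have h2 := t1 p P hP W hn hπ1 hπh h1
    rw [hF', ← mul_pow]
    exact Ideal.mul_mem_right _ _ (Ideal.pow_mem_pow h2 _)
  · rcases ih F'.totalDegree (by omega) (fun i => W i - mu (P i) π) F' hF'0 hF'h hge hF'm with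
      h1 | ⟨H, G, ψ, h1, h2, h3, h4, h5, h6⟩
    · left
      have h2 : π ^ (p ^ E1) ∈ (Ideal.span {π}) ^ (p ^ E1) :=
        Ideal.pow_mem_pow (Ideal.mem_span_singleton_self π) _
      have h3 := Ideal.mul_mem_mul h2 h1
      rw [mul_left_comm, ← mul_pow (Ideal.span {π})] at h3
      rw [hF']
      exact Ideal.mul_mono_right (Ideal.pow_right_mono (mul_iInf_le P hP W hπh hπ0) _) h3
    · right
      refine ⟨π * H, G, ψ, ?_, h2, h3, h4, ?_, h6⟩
      · rw [hF', h1, mul_pow, mul_assoc]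
      · rw [hdeg, Nat.mul_add_mod]
        exact h5

/-- squarefree forms -/
theorem sqfreeE [Infinite k] (E1 : ℕ) (P : Fin s → Fin (n + 1) → k)
    (hP : ∀ i, P i ≠ 0) (hn : 2 ≤ n) (d : ℕ) (W : Fin s → ℕ)
    (F : MvPolynomial (Fin (n + 1)) k) (hF0 : F ≠ 0)
    (hFd : F.IsHomogeneous d) (hpd : p ^ E1 ≤ d) (hF : ∀ i, F ∈ mI (P i) ^ (p ^ E1 * W i))
    (hsq : Squarefree F) :
    F ∈ irr k n ^ (p ^ E1) * (⨅ i, linI (P i) ^ (W i - (n - 1))) ^ (p ^ E1) := by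
  have hp0 : 0 < p ^ E1 := Nat.pow_pos (Fact.out : p.Prime).pos
  by_contra hnot
  obtain ⟨ψ, E, hψ0, hψh, hE⟩ := mlE p E1 P hP W hn hF0 hFd hF
      (Nat.div_add_mod d (p ^ E1)).symm (Nat.mod_lt _ hp0) hnot
  have h1 : F ∣ ψ ^ 1 := by
    refine dvd_pow_pred hF0 ?_ hE
    intro π hπ hd
    have h2 := hsq π (by rwa [← pow_two])
    exact hπ.not_isUnit h2
  rw [pow_one] at h1
  obtain ⟨r, hr⟩ := h1
  have hr0 : r ≠ 0 := by
    rintro rfl
    rw [mul_zero] at hr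
    exact hψ0 hr
  have h2 := hψh.totalDegree hψ0
  rw [hr, totalDegree_mul_of_isDomain hF0 hr0, hFd.totalDegree hF0] at h2
  have h3 := Nat.mod_lt d hp0
  omega

end

end Pool.Agent.TH308.HHp
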