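import Pool.Agent.TH308.HHp.Large
import Pool.Agent.TH719.HHq.Fields

/-!
Large characteristic: the sharper bound.
-/

set_option autoImplicit false

universe u

namespace Pool.Agent.TH308.HHp

open MvPolynomial Pool.Agent.H737R3 Pool.Agent.H737R3.Cont Pool.Agent.Chud

/-- the containment in large characteristic, infinite fields -/
theorem perfL2 {k : Type u} [Field k] {n s : ℕ} (p : ℕ) [Fact p.Prime] [CharP k p] [Infinite k]
    (P : Fin s → Fin (n + 1) → k) (hP : ∀ i, P i ≠ 0) (hn : 2 ≤ n) (hs : 0 < s)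
    (w : Fin s → ℕ) {t : ℕ} (ht : 0 < t)
    (hbig : ∀ i, ∑ j, t * (w j + n - 1) < p * (w i + n - 1)) :
    (⨅ i, linI (P i) ^ (t * (w i + n - 1))) ≤ irr k n ^ t * (⨅ i, linI (P i) ^ (w i)) ^ t := by
  intro F hF
  rw [Submodule.mem_iInf] at hF
  rw [← sum_homogeneousComponent F]
  apply Ideal.sum_mem
  intro d _
  refine gen_deg P hP (fun i => t * (w i + n - 1)) _ ?_ d _
    (homogeneousComponent_isHomogeneous d F) fun i => component_mem (P i) _ (hF i) d
  intro d G hd hG h
  have h1 : ∀ i, Pool.Agent.TH719.HHq.ptI (P i) = linI (P i) := fun i => span_eq_linI (hP i)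
  have h2 : Pool.Agent.TH719.HHq.mxI k n = irr k n := rfl
  have h3 := Pool.Agent.TH719.HHq.f_form p hn hs ht P hP w hG
    (by
      simp only [h1]
      rw [Submodule.mem_iInf]
      exact h)
    (Or.inr fun i => by
      have h4 := hbig i
      have h5 : 1 ≤ t - d % t := by
        have := Nat.mod_lt d ht
        omega
      have h6 : p * (w i + n - 1) * 1 ≤ p * (w i + n - 1) * (t - d % t) :=
        Nat.mul_le_mul_left _ h5
      omega)
  simp only [h1, h2] at h3
  exact h3

/-- the containment in large characteristic -/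
theorem anyL2 {K : Type u} [Field K] {n s : ℕ} (p : ℕ) [CharP K p] (hp : p.Prime) (hn : 2 ≤ n)
    (hs : 0 < s) (P : Fin s → Fin (n + 1) → K) (hP : ∀ i, P i ≠ 0) (w : Fin s → ℕ) {t : ℕ}
    (ht : 0 < t) (hbig : ∀ i, ∑ j, t * (w j + n - 1) < p * (w i + n - 1)) :
    (⨅ i, linI (P i) ^ (t * (w i + n - 1))) ≤ irr K n ^ t * (⨅ i, linI (P i) ^ (w i)) ^ t := by
  have : Fact p.Prime := ⟨hp⟩
  have : CharP (AlgebraicClosure K) p :=
    charP_of_injective_algebraMap (algebraMap K (AlgebraicClosure K)).injective p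
  apply descentM (k := AlgebraicClosure K) P hP
  refine perfL2 p (fun i j => algebraMap K (AlgebraicClosure K) (P i j)) (fun i h => ?_) hn
    hs w ht hbig
  apply hP i
  funext j
  have := congrFun h j
  simpa using this

end Pool.Agent.TH308.HHp
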