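import Pool.Agent.TH308.HHp.LevInd
import Pool.Agent.TH501.HHF.Descent

/-!
Descent of containments with a power of the ideal of the variables.
-/

set_option autoImplicit false

universe u

namespace Pool.Agent.TH308.HHp

open MvPolynomial Pool.Agent.H737R3 Pool.Agent.H737R3.Cont Pool.Agent.Chud Pool.Agent.TH501.HHF

section

variable {K k : Type u} [Field K] [Field k] [Algebra K k] {n s : ℕ}

theorem map_irr : Ideal.map (map (algebraMap K k)) (irr K n) = irr k n := by
  unfold irr
  rw [Ideal.map_span, ← Set.range_comp]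
  congr 2
  funext j
  simp

/-- descent of the containment -/
theorem descentM (P : Fin s → Fin (n + 1) → K) (hP : ∀ i, P i ≠ 0) (u w : Fin s → ℕ) (a t : ℕ)
    (h : (⨅ i, linI (fun j => algebraMap K k (P i j)) ^ (u i)) ≤
      irr k n ^ a * (⨅ i, linI (fun j => algebraMap K k (P i j)) ^ (w i)) ^ t) :
    (⨅ i, linI (P i) ^ (u i)) ≤ irr K n ^ a * (⨅ i, linI (P i) ^ (w i)) ^ t := by
  intro F hF
  rw [Submodule.mem_iInf] at hF
  set e := Module.Basis.ofVectorSpace K k with he
  have h1 : map (algebraMap K k) F ∈ ⨅ i, linI (fun j => algebraMap K k (P i j)) ^ (u i) := by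
    rw [Submodule.mem_iInf]
    intro i
    rw [← map_linI (hP i), ← Ideal.map_pow]
    exact Ideal.mem_map_of_mem _ (hF i)
  have h2 : (⨅ i, linI (fun j => algebraMap K k (P i j)) ^ (w i)) ≤
      Ideal.map (map (algebraMap K k)) (⨅ i, linI (P i) ^ (w i)) := by
    intro f hf
    rw [Submodule.mem_iInf] at hf
    apply mem_map_of_co e
    intro j
    rw [Submodule.mem_iInf]
    intro i
    apply co_mem e
    rw [Ideal.map_pow, map_linI (hP i)]
    exact hf i
  have h3 := Ideal.mul_mono_right (I := irr k n ^ a) (Ideal.pow_right_mono h2 t) (h h1)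
  rw [← Ideal.map_pow, ← map_irr (K := K), ← Ideal.map_pow, ← Ideal.map_mul] at h3
  obtain ⟨j, hj⟩ : ∃ j, e.repr 1 j ≠ 0 := by
    by_contra hcon
    push Not at hcon
    have h4 : e.repr (1 : k) = 0 := by
      ext j
      exact hcon j
    have h5 : (1 : k) = 0 := by
      rw [← e.repr.map_eq_zero_iff]
      exact h4
    exact one_ne_zero h5
  have h6 := co_mem e _ j h3
  have h7 : co e j (map (algebraMap K k) F) = C (e.repr 1 j) * F := by
    have h8 := co_mul_map e j (1 : MvPolynomial (Fin (n + 1)) k) F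
    rw [one_mul] at h8
    rw [h8]
    congr 1
    classical
    ext c
    rw [coeff_co, coeff_one, coeff_C]
    split_ifs
    · rfl
    · simp
  rw [h7] at h6
  have h9 := Ideal.mul_mem_left _ (C (e.repr 1 j)⁻¹) h6
  rw [← mul_assoc, ← C_mul, inv_mul_cancel₀ hj, C_1, one_mul] at h9
  exact h9

/-- the containment over every field of characteristic `p`, for powers of `p` -/
theorem any (p : ℕ) [CharP K p] (hp : p.Prime) (e : ℕ) (hpn : p ^ e ≤ n + 2) (hn : 2 ≤ n)
    (hs : 0 < s) (P : Fin s → Fin (n + 1) → K) (hP : ∀ i, P i ≠ 0) (w : Fin s → ℕ) :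
    (⨅ i, linI (P i) ^ (p ^ e * (w i + n - 1))) ≤
      irr K n ^ (p ^ e) * (⨅ i, linI (P i) ^ (w i)) ^ (p ^ e) := by
  have : Fact p.Prime := ⟨hp⟩
  have : CharP (AlgebraicClosure K) p :=
    charP_of_injective_algebraMap (algebraMap K (AlgebraicClosure K)).injective p
  apply descentM (k := AlgebraicClosure K) P hP
  refine perfE p e hpn (fun i j => algebraMap K (AlgebraicClosure K) (P i j)) (fun i h => ?_) hn
    hs w
  apply hP i
  funext j
  have := congrFun h j
  simpa using this

end

end Pool.Agent.TH308.HHp
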