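import Pool.Agent.TH501.HHF.CharP

/-!
Frobenius powers and divisibility: the general lemma.
-/

set_option autoImplicit false

universe u

namespace Pool.Agent.TH308.HHp

open MvPolynomial Pool.Agent.H737R3 Pool.Agent.H737R3.Cont Pool.Agent.Chud Pool.Agent.TH501.HHF

section

variable {k : Type u} [Field k] (p : ℕ) [Fact p.Prime] [CharP k p] {N : ℕ} [PerfectRing k p]

theorem froE_mono (E : ℕ) {I J : Ideal (MvPolynomial (Fin N) k)} (h : I ≤ J) :
    froE p E I ≤ froE p E J := by
  induction E with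
  | zero => exact h
  | succ E ih => exact fro_mono ih

theorem froE_add (E E1 : ℕ) (I : Ideal (MvPolynomial (Fin N) k)) :
    froE p E (froE p E1 I) = froE p (E + E1) I := by
  induction E with
  | zero => rw [zero_add]; rfl
  | succ E ih =>
    rw [Nat.succ_add]
    show fro p (froE p E (froE p E1 I)) = fro p (froE p (E + E1) I)
    rw [ih]

theorem pow_mem_froE (E : ℕ) {I : Ideal (MvPolynomial (Fin N) k)} {a : MvPolynomial (Fin N) k}
    (h : a ∈ I) : a ^ (p ^ E) ∈ froE p E I := by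
  induction E with
  | zero =>
    show a ^ (p ^ 0) ∈ I
    rwa [pow_zero, pow_one]
  | succ E ih =>
    rw [pow_succ, pow_mul]
    have := Ideal.mem_map_of_mem (frobenius (MvPolynomial (Fin N) k) p) ih
    rwa [frobenius_def] at this

theorem froE_sup (E : ℕ) (I : Ideal (MvPolynomial (Fin N) k)) (g : MvPolynomial (Fin N) k) :
    froE p E (I ⊔ Ideal.span {g}) = froE p E I ⊔ Ideal.span {g ^ (p ^ E)} := by
  induction E with
  | zero => simp [froE]
  | succ E ih =>
    show fro p (froE p E (I ⊔ Ideal.span {g})) = fro p (froE p E I) ⊔ _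
    rw [ih]
    unfold fro
    rw [Ideal.map_sup, Ideal.map_span, Set.image_singleton, frobenius_def, ← pow_mul, ← pow_succ]

theorem froE_colon (E : ℕ) {A B : Ideal (MvPolynomial (Fin N) k)} {g : MvPolynomial (Fin N) k}
    (h : ∀ x, g * x ∈ A → x ∈ B) : ∀ x, g ^ (p ^ E) * x ∈ froE p E A → x ∈ froE p E B := by
  induction E with
  | zero => simpa [froE] using h
  | succ E ih =>
    intro x hx
    show x ∈ fro p (froE p E B)
    apply fro_of_cmp_mem
    intro b hb
    apply ih
    have h1 : g ^ (p ^ (E + 1)) * x ∈ fro p (froE p E A) := hx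
    have h2 := cmp_mem_of_fro h1 hb
    rwa [pow_succ, pow_mul, cmp_pow_mul hb] at h2

theorem froE_small (E : ℕ) {B : Ideal (MvPolynomial (Fin N) k)} (hB : ∀ f ∈ B, coeff 0 f = 0) :
    ∀ x ∈ froE p E B, ∀ u : Fin N →₀ ℕ, u.degree < p ^ E → coeff u x = 0 := by
  induction E with
  | zero =>
    intro x hx u hu
    have h0 : u.degree = 0 := by simpa using hu
    rw [(Finsupp.degree_eq_zero_iff u).1 h0]
    exact hB x hx
  | succ E ih =>
    intro x hx u hu
    have hp : 0 < p := (Fact.out : p.Prime).pos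
    have h1 : x ∈ fro p (froE p E B) := hx
    have h2 := cmp_mem_of_fro h1 (md_lt p u)
    have h3 : u.degree = p * (dv p u).degree + (md p u).degree := by
      conv_lhs => rw [← dv_md p u]
      rw [map_add, map_nsmul, smul_eq_mul]
    have h4 : (dv p u).degree < p ^ E := by
      have : p * (dv p u).degree < p * p ^ E := by
        rw [← pow_succ']
        omega
      exact lt_of_mul_lt_mul_left this (Nat.zero_le _)
    have h5 := ih _ h2 _ h4
    rw [coeff_cmp (md_lt p u), dv_md] at h5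
    have h6 := ifr_pow p (coeff u x)
    rw [h5, zero_pow hp.ne'] at h6
    exact h6.symm

end

theorem dvd_component {k : Type u} [Field k] {N : ℕ} {F : MvPolynomial (Fin N) k} {d : ℕ}
    (hF : F.IsHomogeneous d) (r : MvPolynomial (Fin N) k) (D : ℕ) :
    F ∣ homogeneousComponent D (r * F) := by
  classical
  conv_rhs => rw [← sum_homogeneousComponent r]
  rw [Finset.sum_mul, map_sum]
  apply Finset.dvd_sum
  intro i _
  have h1 : (homogeneousComponent i r * F).IsHomogeneous (i + d) :=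
    (homogeneousComponent_isHomogeneous i r).mul hF
  rw [homogeneousComponent_of_mem ((mem_homogeneousSubmodule _ _).2 h1)]
  split_ifs
  · exact dvd_mul_left _ _
  · exact dvd_zero _

section

variable {k : Type u} [Field k] (p : ℕ) [Fact p.Prime] [CharP k p] [PerfectRing k p] {n s : ℕ}

/-- forms with large orders lie in iterated Frobenius powers (orders not reduced) -/
theorem mem_froE' (P : Fin s → Fin (n + 1) → k) (hP : ∀ i, P i ≠ 0) (W : Fin s → ℕ)
    (hn : 1 ≤ n) : ∀ (E d : ℕ) (F : MvPolynomial (Fin (n + 1)) k), F.IsHomogeneous d →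
    (∀ i, F ∈ mI (P i) ^ (p ^ E * W i - (n - 1))) →
    F ∈ froE p E (⨅ i, linI (P i) ^ (W i - (n - 1))) := by
  intro E
  induction E with
  | zero =>
    intro d F hF h
    show F ∈ ⨅ i, linI (P i) ^ (W i - (n - 1))
    rw [Submodule.mem_iInf]
    intro i
    have h1 := mem_linI_pow hF (hP i) (h i)
    rwa [pow_zero, one_mul] at h1
  | succ E ih =>
    intro d F hF h
    show F ∈ fro p (froE p E (⨅ i, linI (P i) ^ (W i - (n - 1))))
    apply fro_of_cmp_mem
    intro b hb
    by_cases h0 : cmp p b F = 0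
    · rw [h0]
      exact Ideal.zero_mem _
    obtain ⟨l, -, hl⟩ := cmp_homog' hb hF h0
    refine ih l _ hl fun i => ?_
    rcases Nat.lt_or_ge (p ^ E * W i) n with hlt | hge
    · have e0 : p ^ E * W i - (n - 1) = 0 := by omega
      rw [e0, pow_zero, Ideal.one_eq_top]
      exact Submodule.mem_top
    have h1 : F ∈ fro p (linI (P i) ^ (p ^ E * W i - (n - 1))) := by
      refine mem_fro_linI hF (hP i) (h i) ?_
      have e1 : p ^ E * W i - (n - 1) + n = p ^ E * W i + 1 := by omega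
      have e2 : p ^ (E + 1) * W i = p * (p ^ E * W i) := by rw [pow_succ]; ring
      rw [e1, e2, mul_add, mul_one]
      have hp : 1 ≤ p := (Fact.out : p.Prime).pos
      have e3 : 1 * n ≤ p * (p ^ E * W i) := Nat.mul_le_mul hp hge
      omega
    have h2 := cmp_mem_of_fro h1 hb
    exact Ideal.pow_right_mono (linI_le_mI (P i)) _ h2

/-- the general lemma -/
theorem gen (P : Fin s → Fin (n + 1) → k) (hP : ∀ i, P i ≠ 0) (W : Fin s → ℕ) (hn : 1 ≤ n)
    (E1 : ℕ) {d : ℕ} {F : MvPolynomial (Fin (n + 1)) k} (hFd : F.IsHomogeneous d)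
    (hF : ∀ i, F ∈ mI (P i) ^ (p ^ E1 * W i))
    {A : Ideal (MvPolynomial (Fin (n + 1)) k)} {g : MvPolynomial (Fin (n + 1)) k}
    (hI : (⨅ i, linI (P i) ^ (W i - (n - 1))) ≤ A ⊔ Ideal.span {g})
    (hA : ∀ x, g * x ∈ A → coeff 0 x = 0)
    {ψ : MvPolynomial (Fin (n + 1)) k} {ρ : ℕ} (hψ : ψ.IsHomogeneous ρ) (hρ : ρ < p ^ E1)
    {c : MvPolynomial (Fin (n + 1)) k}
    (hrel : c * F - g ^ (p ^ E1) * ψ ∈ froE p E1 A)
    {x : MvPolynomial (Fin (n + 1)) k} {δ : ℕ} (hxd : x.IsHomogeneous δ)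
    (hx : ∀ i, x ∈ mI (P i) ^ (p ^ E1 * W i)) :
    ∃ E, F ∣ x * ψ ^ (p ^ E) := by
  classical
  have hp1 : 1 < p := (Fact.out : p.Prime).one_lt
  have hp0 : 0 < p := by omega
  refine ⟨δ, ?_⟩
  set q := p ^ δ with hq
  have hδ : δ < q := Nat.lt_pow_self hp1
  have hq1 : 1 ≤ q := by omega
  -- the product lies in the Frobenius power
  have h1 : x * F ^ (q - 1) ∈ froE p (δ + E1) (⨅ i, linI (P i) ^ (W i - (n - 1))) := by
    refine mem_froE' p P hP W hn (δ + E1) _ _ (hxd.mul (hFd.pow _)) fun i => ?_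
    have h2 := Ideal.mul_mem_mul (hx i) (Ideal.pow_mem_pow (hF i) (q - 1))
    rw [← pow_mul, ← pow_add] at h2
    refine Ideal.pow_le_pow_right ?_ h2
    refine (Nat.sub_le _ _).trans (le_of_eq ?_)
    obtain ⟨q', hq'⟩ : ∃ q', q = q' + 1 := ⟨q - 1, by omega⟩
    rw [pow_add, ← hq, hq', Nat.add_sub_cancel]
    ring
  have h2 := froE_mono p (δ + E1) hI h1
  rw [froE_sup, Submodule.mem_sup] at h2
  obtain ⟨ν, hν, z, hz, hsum⟩ := h2
  rw [Ideal.mem_span_singleton'] at hz
  obtain ⟨y, rfl⟩ := hz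
  -- the powers of the relation
  have h3 : c ^ q * F ^ q - (g ^ (p ^ E1) * ψ) ^ q ∈ froE p (δ + E1) A := by
    have h4 := pow_mem_froE p δ hrel
    rw [froE_add, sub_pow_char_pow, mul_pow] at h4
    exact h4
  have h5 : g ^ (p ^ (δ + E1)) * (x * ψ ^ q - c ^ q * y * F) ∈ froE p (δ + E1) A := by
    have h6 : g ^ (p ^ (δ + E1)) * (x * ψ ^ q - c ^ q * y * F) =
        c ^ q * F * ν - x * (c ^ q * F ^ q - (g ^ (p ^ E1) * ψ) ^ q) := by
      have h7 : F ^ q = F ^ (q - 1) * F := by rw [← pow_succ, Nat.sub_add_cancel hq1]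
      have h8 : ν = x * F ^ (q - 1) - y * g ^ (p ^ (δ + E1)) := by rw [← hsum]; ring
      have h9 : (g ^ (p ^ E1) * ψ) ^ q = g ^ (p ^ (δ + E1)) * ψ ^ q := by
        rw [mul_pow, ← pow_mul, pow_add, ← hq, mul_comm (p ^ E1) q]
      rw [h9, h8, h7]
      ring
    rw [h6]
    exact Ideal.sub_mem _ (Ideal.mul_mem_left _ _ hν) (Ideal.mul_mem_left _ _ h3)
  have h10 := froE_colon p (δ + E1) (A := A)
    (B := RingHom.ker (constantCoeff : MvPolynomial (Fin (n + 1)) k →+* k)) (g := g)
    (fun x hx => by rw [RingHom.mem_ker, constantCoeff_eq]; exact hA x hx) _ h5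
  have h11 := froE_small p (δ + E1)
    (B := RingHom.ker (constantCoeff : MvPolynomial (Fin (n + 1)) k →+* k))
    (fun f hf => by rwa [RingHom.mem_ker, constantCoeff_eq] at hf) _ h10
  -- compare in degree `δ + ρ * q`
  have h12 : (x * ψ ^ q).IsHomogeneous (δ + ρ * q) := hxd.mul (hψ.pow _)
  have h13 : δ + ρ * q < p ^ (δ + E1) := by
    rw [pow_add, ← hq]
    have : (ρ + 1) * q ≤ p ^ E1 * q := Nat.mul_le_mul_right _ hρ
    have e1 : (ρ + 1) * q = ρ * q + q := by ring
    have e2 : q * p ^ E1 = p ^ E1 * q := mul_comm _ _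
    omega
  have h14 : homogeneousComponent (δ + ρ * q) (x * ψ ^ q - c ^ q * y * F) = 0 := by
    ext u
    rw [coeff_homogeneousComponent, coeff_zero]
    split_ifs with hu
    · exact h11 u (by rw [hu]; exact h13)
    · rfl
  rw [map_sub, sub_eq_zero, homogeneousComponent_of_mem ((mem_homogeneousSubmodule _ _).2 h12),
    if_pos rfl] at h14
  rw [h14]
  exact dvd_component hFd _ _

end

end Pool.Agent.TH308.HHp
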