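import Pool.Agent.TH308.HHp.Main

/-!
Induction on the degree.
-/

set_option autoImplicit false

universe u

namespace Pool.Agent.TH308.HHp

open MvPolynomial Pool.Agent.H737R3 Pool.Agent.H737R3.Cont Pool.Agent.Chud Pool.Agent.TH501.HHF

section

variable {k : Type u} [Field k] (p : ℕ) [Fact p.Prime] [CharP k p] [PerfectRing k p] {n s : ℕ}

/-- forms without factors which are `p`-th powers -/
theorem free [Infinite k] (hp3 : p ≤ 3) (P : Fin s → Fin (n + 1) → k) (hP : ∀ i, P i ≠ 0)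
    (W : Fin s → ℕ) (hn : 2 ≤ n) {d : ℕ} (hpd : p ≤ d) {F : MvPolynomial (Fin (n + 1)) k}
    (hF0 : F ≠ 0) (hFd : F.IsHomogeneous d) (hF : ∀ i, F ∈ mI (P i) ^ (p * W i))
    (hfree : ∀ π, Prime π → ¬ π ^ p ∣ F) :
    F ∈ irr k n ^ p * (⨅ i, linI (P i) ^ (W i - (n - 1))) ^ p := by
  have hp := (Fact.out : p.Prime)
  have hp0 : 0 < p := hp.pos
  have hFI : F ∈ fro p (⨅ i, linI (P i) ^ (W i - (n - 1))) := by
    have := mem_froE' p P hP W (by omega) 1 d F hFd (fun i =>
      Ideal.pow_le_pow_right (by rw [pow_one]; exact Nat.sub_le _ _) (hF i))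
    exact this
  refine assemble p (fun c hc => cmp_mem_of_fro hFI hc) ?_
  intro b hb hbp
  by_contra hnot
  have hg0 : cmp p b F ≠ 0 := by
    intro h
    apply hnot
    rw [h]
    exact Ideal.zero_mem _
  obtain ⟨ν, hν, -⟩ := cmp_homog' hb hFd hg0
  obtain ⟨ψ, E, hψ0, hψh, hE⟩ := ml p P hP W hn hF0 hFd hF hb hbp hnot
  obtain ⟨m, hm⟩ : ∃ m, p = m + 1 := ⟨p - 1, by omega⟩
  have h1 : F ∣ ψ ^ m := dvd_pow_pred hF0 (by rw [← hm]; exact hfree) hE
  obtain ⟨r, hr⟩ := h1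
  have hr0 : r ≠ 0 := by
    rintro rfl
    rw [mul_zero] at hr
    exact pow_ne_zero m hψ0 hr
  have h2 := (hψh.pow m).totalDegree (pow_ne_zero m hψ0)
  rw [hr, totalDegree_mul_of_isDomain hF0 hr0, hFd.totalDegree hF0] at h2
  set ρ := b.degree with hρ
  have h3 : 1 ≤ ν := by
    by_contra hcon
    have : ν = 0 := by omega
    subst this
    omega
  have h4 : p * 1 ≤ p * ν := Nat.mul_le_mul_left _ h3
  have h5 : p + ρ ≤ ρ * m := by omega
  have h6 : ρ * m ≤ ρ * 2 := Nat.mul_le_mul_left _ (by omega)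
  have h7 : m = 1 ∨ m = 2 := by
    have := hp.two_le
    omega
  rcases h7 with h7 | h7
  · subst h7
    omega
  · subst h7
    omega

theorem mul_iInf_le (P : Fin s → Fin (n + 1) → k) (hP : ∀ i, P i ≠ 0) (W : Fin s → ℕ)
    {π : MvPolynomial (Fin (n + 1)) k} {e : ℕ} (hπ : π.IsHomogeneous e) (hπ0 : π ≠ 0) :
    Ideal.span {π} * (⨅ i, linI (P i) ^ (W i - mu (P i) π - (n - 1))) ≤
      ⨅ i, linI (P i) ^ (W i - (n - 1)) := by
  rw [le_iInf_iff]
  intro i
  rw [Ideal.span_singleton_mul_le_iff]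
  intro z hz
  rw [Submodule.mem_iInf] at hz
  have h1 : π ∈ linI (P i) ^ (mu (P i) π) :=
    mem_linI_pow hπ (hP i) ((mem_mI_pow_iff (P i) hπ0 _).2 le_rfl)
  have h2 := Ideal.mul_mem_mul h1 (hz i)
  rw [← pow_add] at h2
  exact Ideal.pow_le_pow_right (by omega) h2

include p in
/-- the containment for forms of degree at least `p` -/
theorem tw [Infinite k] (hp3 : p ≤ 3) (P : Fin s → Fin (n + 1) → k) (hP : ∀ i, P i ≠ 0)
    (hn : 2 ≤ n) : ∀ (d : ℕ) (W : Fin s → ℕ) (F : MvPolynomial (Fin (n + 1)) k),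
    F.IsHomogeneous d → p ≤ d → (∀ i, F ∈ mI (P i) ^ (p * W i)) →
    F ∈ irr k n ^ p * (⨅ i, linI (P i) ^ (W i - (n - 1))) ^ p := by
  intro d
  induction d using Nat.strong_induction_on with
  | _ d ih =>
  intro W F hFd hpd hF
  have hp0 : 0 < p := (Fact.out : p.Prime).pos
  by_cases hF0 : F = 0
  · rw [hF0]
    exact Ideal.zero_mem _
  by_cases hfree : ∀ π, Prime π → ¬ π ^ p ∣ F
  · exact free p hp3 P hP W hn hpd hF0 hFd hF hfree
  push Not at hfree
  obtain ⟨π, hπ, F', hF'⟩ := hfree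
  have hπ0 : π ≠ 0 := hπ.ne_zero
  have hF'0 : F' ≠ 0 := by
    rintro rfl
    rw [mul_zero] at hF'
    exact hF0 hF'
  have hπF : π ∣ F := (dvd_pow_self π hp0.ne').trans ⟨F', hF'⟩
  have hπh : π.IsHomogeneous π.totalDegree := homog_of_dvd hFd hF0 hπF
  have hF'h : F'.IsHomogeneous F'.totalDegree :=
    homog_of_dvd hFd hF0 ⟨π ^ p, by rw [hF', mul_comm]⟩
  have hπ1 : 1 ≤ π.totalDegree := by
    by_contra hcon
    have h1 : π.totalDegree = 0 := by omega
    apply hπ.not_isUnit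
    have h2 := totalDegree_eq_zero_iff_eq_C.1 h1
    have h3 : coeff 0 π ≠ 0 := by
      intro h4
      rw [h4, C_0] at h2
      exact hπ0 h2
    rw [h2]
    exact (isUnit_iff_ne_zero.2 h3).map C
  have hdeg : d = p * π.totalDegree + F'.totalDegree := by
    have h1 := hFd.totalDegree hF0
    have h2 := (hπh.pow p).totalDegree (pow_ne_zero p hπ0)
    rw [hF', totalDegree_mul_of_isDomain (pow_ne_zero p hπ0) hF'0, h2] at h1
    rw [← h1, mul_comm p]
  have hmu : ∀ i, mu (P i) F = p * mu (P i) π + mu (P i) F' := by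
    intro i
    rw [hF', mu_mul _ (pow_ne_zero p hπ0) hF'0, Pool.Agent.H580C.BL_mu_pow _ hπ0]
  have hord : ∀ i, p * (W i - mu (P i) π) ≤ mu (P i) F' := by
    intro i
    have h1 := (mem_mI_pow_iff (P i) hF0 _).1 (hF i)
    rw [hmu i] at h1
    rw [Nat.mul_sub]
    omega
  have hF'm : ∀ i, F' ∈ mI (P i) ^ (p * (W i - mu (P i) π)) :=
    fun i => (mem_mI_pow_iff (P i) hF'0 _).2 (hord i)
  have hpπ : p * 1 ≤ p * π.totalDegree := Nat.mul_le_mul_left _ hπ1
  rcases Nat.lt_or_ge F'.totalDegree p with hlt | hge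
  · -- the other factor has small degree
    have h1 : ∀ i, π ∈ mI (P i) ^ (W i) := by
      intro i
      rw [mem_mI_pow_iff (P i) hπ0]
      by_contra hcon
      push Not at hcon
      have h2 : 1 ≤ W i - mu (P i) π := by omega
      have h3 : p * 1 ≤ p * (W i - mu (P i) π) := Nat.mul_le_mul_left _ h2
      have h4 := hord i
      have h5 := mu_le_totalDegree (P i) hF'0
      omega
    have h2 := t1 p P hP W hn hπ1 hπh h1
    rw [hF', ← mul_pow]
    exact Ideal.mul_mem_right _ _ (Ideal.pow_mem_pow h2 p)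
  · have h1 := ih F'.totalDegree (by omega) (fun i => W i - mu (P i) π) F' hF'h hge hF'm
    have h2 : π ^ p ∈ (Ideal.span {π}) ^ p :=
      Ideal.pow_mem_pow (Ideal.mem_span_singleton_self π) p
    have h3 := Ideal.mul_mem_mul h2 h1
    rw [mul_left_comm, ← mul_pow (Ideal.span {π})] at h3
    rw [hF']
    exact Ideal.mul_mono_right (Ideal.pow_right_mono (mul_iInf_le P hP W hπh hπ0) p) h3

include p in
/-- the containment over infinite perfect fields -/
theorem perf [Infinite k] (hp3 : p ≤ 3) (P : Fin s → Fin (n + 1) → k) (hP : ∀ i, P i ≠ 0)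
    (hn : 2 ≤ n) (hs : 0 < s) (w : Fin s → ℕ) :
    (⨅ i, linI (P i) ^ (p * (w i + n - 1))) ≤
      irr k n ^ p * (⨅ i, linI (P i) ^ (w i)) ^ p := by
  intro F hF
  rw [Submodule.mem_iInf] at hF
  rw [← sum_homogeneousComponent F]
  apply Ideal.sum_mem
  intro d _
  set G := homogeneousComponent d F with hG
  have hGd : G.IsHomogeneous d := homogeneousComponent_isHomogeneous d F
  have hGm : ∀ i, G ∈ mI (P i) ^ (p * (w i + n - 1)) := fun i =>
    Ideal.pow_right_mono (linI_le_mI (P i)) _ (component_mem (P i) _ (hF i) d)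
  by_cases hG0 : G = 0
  · rw [hG0]
    exact Ideal.zero_mem _
  have hpd : p ≤ d := by
    have h1 := (mem_mI_pow_iff (P ⟨0, hs⟩) hG0 _).1 (hGm ⟨0, hs⟩)
    have h2 := mu_le_totalDegree (P ⟨0, hs⟩) hG0
    rw [hGd.totalDegree hG0] at h2
    have h3 : p * 1 ≤ p * (w ⟨0, hs⟩ + n - 1) := Nat.mul_le_mul_left _ (by omega)
    omega
  have h4 := tw p hp3 P hP hn d (fun i => w i + n - 1) G hGd hpd hGm
  have h5 : (fun i => linI (P i) ^ (w i + n - 1 - (n - 1))) = fun i => linI (P i) ^ (w i) := by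
    funext i
    congr 1
    omega
  simp only [h5] at h4
  exact h4

end

end Pool.Agent.TH308.HHp
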