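import Pool.Agent.TH308.HHp.Desc
import Pool.Agent.H737R3.Cont.CharP
import Pool.Agent.H915R3.ContT2

/-!
Large characteristic: generators of bounded degree.
-/

set_option autoImplicit false
set_option linter.unusedSectionVars false

universe u

namespace Pool.Agent.TH308.HHp

open MvPolynomial Pool.Agent.H737R3 Pool.Agent.H737R3.Cont Pool.Agent.Chud

section

variable {k : Type u} [Field k] {n s : ℕ}

/-- a linear form which does not vanish at the points -/
theorem exists_off [Infinite k] (P : Fin s → Fin (n + 1) → k) (hP : ∀ i, P i ≠ 0) :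
    ∃ l : MvPolynomial (Fin (n + 1)) k, l.IsHomogeneous 1 ∧ ∀ i, eval (P i) l ≠ 0 := by
  classical
  obtain ⟨f, hf⟩ := Module.exists_dual_forall_apply_ne_zero (K := k) P hP
  refine ⟨∑ j, C (f (Pi.single j 1)) * X j, ?_, ?_⟩
  · apply IsHomogeneous.sum
    intro j _
    have := (isHomogeneous_C (Fin (n + 1)) (f (Pi.single j 1))).mul (isHomogeneous_X k j)
    rwa [zero_add] at this
  · intro i
    have h1 : eval (P i) (∑ j, C (f (Pi.single j 1)) * X j) = f (P i) := by
      rw [map_sum]
      conv_rhs => rw [LinearMap.pi_apply_eq_sum_univ f (P i)]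
      apply Finset.sum_congr rfl
      intro j _
      rw [map_mul, eval_C, eval_X, smul_eq_mul, mul_comm]
      congr 2
      funext i'
      simp [Pi.single_apply, eq_comm]
    rw [h1]
    exact hf i

/-- the variables are linear forms through the point up to multiples of `l` -/
theorem irr_le (q : Fin (n + 1) → k) {l : MvPolynomial (Fin (n + 1)) k} (hl : l.IsHomogeneous 1)
    (hq : eval q l ≠ 0) : irr k n ≤ linI q ⊔ Ideal.span {l} := by
  unfold irr
  rw [Ideal.span_le]
  rintro _ ⟨j, rfl⟩
  have h1 : (X j : MvPolynomial (Fin (n + 1)) k) =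
      (X j - C (q j / eval q l) * l) + C (q j / eval q l) * l := by ring
  have h2 : (X j - C (q j / eval q l) * l : MvPolynomial (Fin (n + 1)) k) ∈ linI q := by
    apply Ideal.subset_span
    constructor
    · apply IsHomogeneous.sub (isHomogeneous_X k j)
      have := (isHomogeneous_C (Fin (n + 1)) (q j / eval q l)).mul hl
      rwa [zero_add] at this
    · rw [map_sub, eval_X, map_mul, eval_C, div_mul_cancel₀ _ hq, sub_self]
  show (X j : MvPolynomial (Fin (n + 1)) k) ∈ linI q ⊔ Ideal.span {l}
  rw [h1]
  exact Ideal.add_mem _ (Ideal.mem_sup_left h2)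
    (Ideal.mem_sup_right (Ideal.mul_mem_left _ _ (Ideal.mem_span_singleton_self l)))

theorem irr_pow_le (P : Fin s → Fin (n + 1) → k) (a : Fin s → ℕ)
    {l : MvPolynomial (Fin (n + 1)) k} (hl : l.IsHomogeneous 1) (hq : ∀ i, eval (P i) l ≠ 0) :
    irr k n ^ (∑ i, a i) ≤ (⨅ i, linI (P i) ^ (a i)) ⊔ Ideal.span {l} := by
  classical
  have h0 : ∀ (I J : Ideal (MvPolynomial (Fin (n + 1)) k)),
      (I ⊔ Ideal.span {l}) * (J ⊔ Ideal.span {l}) ≤ I * J ⊔ Ideal.span {l} := by
    intro I J
    rw [Ideal.mul_sup, Ideal.sup_mul]
    refine sup_le (sup_le le_sup_left ?_) ?_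
    rotate_left
    · exact le_sup_of_le_right Ideal.mul_le_right
    · exact le_sup_of_le_right Ideal.mul_le_left
  have h1 : ∀ i, irr k n ^ (a i) ≤ linI (P i) ^ (a i) ⊔ Ideal.span {l} := by
    intro i
    refine (Ideal.pow_right_mono (irr_le (P i) hl (hq i)) (a i)).trans ?_
    generalize a i = m
    induction m with
    | zero =>
      rw [pow_zero, pow_zero]
      exact le_sup_left
    | succ m ih =>
      rw [pow_succ, pow_succ]
      exact (Ideal.mul_mono_left ih).trans (h0 _ _)
  have h2 : ∀ S : Finset (Fin s), irr k n ^ (∑ i ∈ S, a i) ≤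
      (∏ i ∈ S, linI (P i) ^ (a i)) ⊔ Ideal.span {l} := by
    intro S
    induction S using Finset.induction_on with
    | empty =>
      rw [Finset.sum_empty, Finset.prod_empty, pow_zero]
      exact le_sup_left
    | insert i S hi ih =>
      rw [Finset.sum_insert hi, Finset.prod_insert hi, pow_add]
      exact (Ideal.mul_mono (h1 i) ih).trans (h0 _ _)
  refine (h2 Finset.univ).trans (sup_le_sup_right ?_ _)
  rw [le_iInf_iff]
  intro i
  rw [← Finset.mul_prod_erase Finset.univ _ (Finset.mem_univ i)]
  exact Ideal.mul_le_left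

theorem hc_mul {l : MvPolynomial (Fin (n + 1)) k} {e : ℕ} (hl : l.IsHomogeneous e)
    (r : MvPolynomial (Fin (n + 1)) k) (i : ℕ) :
    homogeneousComponent (i + e) (r * l) = homogeneousComponent i r * l := by
  classical
  have h0 : homogeneousComponent (i + e) (r * l) = homogeneousComponent (i + e)
      ((∑ j ∈ Finset.range (r.totalDegree + 1), homogeneousComponent j r) * l) := by
    rw [sum_homogeneousComponent r]
  rw [h0, Finset.sum_mul, map_sum, Finset.sum_eq_single i]
  · rw [homogeneousComponent_of_mem ((mem_homogeneousSubmodule _ _).2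
      ((homogeneousComponent_isHomogeneous i r).mul hl)), if_pos rfl]
  · intro j _ hj
    rw [homogeneousComponent_of_mem ((mem_homogeneousSubmodule _ _).2
      ((homogeneousComponent_isHomogeneous j r).mul hl)), if_neg (by omega)]
  · intro hi
    rw [Finset.mem_range] at hi
    rw [homogeneousComponent_eq_zero i r (by omega), zero_mul, map_zero]

/-- generation in degree at most `∑ a i` -/
theorem gen_deg [Infinite k] (P : Fin s → Fin (n + 1) → k) (hP : ∀ i, P i ≠ 0) (a : Fin s → ℕ)
    (B : Ideal (MvPolynomial (Fin (n + 1)) k))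
    (hB : ∀ (d : ℕ) (F : MvPolynomial (Fin (n + 1)) k), d ≤ ∑ i, a i → F.IsHomogeneous d →
      (∀ i, F ∈ linI (P i) ^ (a i)) → F ∈ B) :
    ∀ (d : ℕ) (F : MvPolynomial (Fin (n + 1)) k), F.IsHomogeneous d →
      (∀ i, F ∈ linI (P i) ^ (a i)) → F ∈ B := by
  classical
  obtain ⟨l, hl, hl0⟩ := exists_off P hP
  have hlne : l ≠ 0 ∨ s = 0 := by
    rcases Nat.eq_zero_or_pos s with h | h
    · exact Or.inr h
    · left
      intro h0
      apply hl0 ⟨0, h⟩
      rw [h0, map_zero]
  intro d
  induction d with
  | zero =>
    intro F hF h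
    exact hB 0 F (Nat.zero_le _) hF h
  | succ d ih =>
    intro F hF h
    rcases Nat.lt_or_ge (∑ i, a i) (d + 1) with hlt | hge
    · -- write `F` with the forms of degree `d`
      set I : Ideal (MvPolynomial (Fin (n + 1)) k) := ⨅ i, linI (P i) ^ (a i) with hI
      have memI : ∀ f, f ∈ I ↔ ∀ i, f ∈ linI (P i) ^ (a i) := by
        intro f
        rw [hI, Submodule.mem_iInf]
      have hIB : ∀ G ∈ I, homogeneousComponent d G ∈ B := by
        intro G hG
        exact ih _ (homogeneousComponent_isHomogeneous d G)
          fun i => component_mem (P i) _ ((memI G).1 hG i) d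
      have h1 : F ∈ irr k n * irr k n ^ (∑ i, a i) := by
        rw [← pow_succ']
        exact Ideal.pow_le_pow_right (by omega)
          (Pool.Agent.H915R3.ContT2.homog_mem_irr hF)
      have h2 : F ∈ irr k n * (I ⊔ Ideal.span {l}) :=
        Ideal.mul_mono_right (irr_pow_le P a hl hl0) h1
      rw [Ideal.mul_sup, Submodule.mem_sup] at h2
      obtain ⟨u, hu, v, hv, huv⟩ := h2
      have hvl : v ∈ Ideal.span {l} := Ideal.mul_le_right hv
      rw [Ideal.mem_span_singleton'] at hvl
      obtain ⟨r, hr⟩ := hvl
      have huI : u ∈ I := Ideal.mul_le_right hu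
      have h3 : homogeneousComponent (d + 1) u ∈ B := by
        refine Submodule.mul_induction_on hu ?_ ?_
        · intro x hx
          have key : ∀ G ∈ I, homogeneousComponent (d + 1) (x * G) ∈ B := by
            refine Submodule.span_induction
              (p := fun x _ => ∀ G ∈ I, homogeneousComponent (d + 1) (x * G) ∈ B) ?_ ?_ ?_ ?_ hx
            · rintro _ ⟨j, rfl⟩ G hG
              show homogeneousComponent (d + 1) (X j * G) ∈ B
              rw [homogeneousComponent_X_mul]
              exact Ideal.mul_mem_left _ _ (hIB G hG)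
            · intro G _
              rw [zero_mul, map_zero]
              exact Ideal.zero_mem _
            · intro x y _ _ hx hy G hG
              rw [add_mul, map_add]
              exact Ideal.add_mem _ (hx G hG) (hy G hG)
            · intro c x _ hx G hG
              have : c • x * G = x * (c * G) := by rw [smul_eq_mul]; ring
              rw [this]
              exact hx _ (I.mul_mem_left c hG)
          exact key
        · intro x y hx hy
          rw [map_add]
          exact Ideal.add_mem _ hx hy
      have hFI : F ∈ I := (memI F).2 h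
      have hvI : v ∈ I := by
        have : v = F - u := by rw [← huv]; ring
        rw [this]
        exact I.sub_mem hFI huI
      have hcomp : homogeneousComponent (d + 1) v = homogeneousComponent d r * l := by
        rw [← hr]
        exact hc_mul hl r d
      have h4 : homogeneousComponent d r ∈ B := by
        refine ih _ (homogeneousComponent_isHomogeneous d r) fun i => ?_
        have h5 : homogeneousComponent (d + 1) v ∈ linI (P i) ^ (a i) :=
          component_mem (P i) _ ((memI v).1 hvI i) (d + 1)
        rw [hcomp] at h5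
        by_cases hr0 : homogeneousComponent d r = 0
        · rw [hr0]
          exact Ideal.zero_mem _
        have hl1 : l ≠ 0 := by
          intro h0
          apply hl0 i
          rw [h0, map_zero]
        apply mem_linI_pow (homogeneousComponent_isHomogeneous d r) (hP i)
        rw [mem_mI_pow_iff (P i) hr0]
        have h6 := Ideal.pow_right_mono (linI_le_mI (P i)) _ h5
        rw [mem_mI_pow_iff (P i) (mul_ne_zero hr0 hl1), mu_mul _ hr0 hl1] at h6
        have h7 : mu (P i) l = 0 := by
          by_contra h8
          exact hl0 i ((mu_pos_iff (P i) hl1).1 (Nat.pos_of_ne_zero h8))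
        omega
      have h9 : F = homogeneousComponent (d + 1) u + homogeneousComponent (d + 1) v := by
        rw [← map_add, huv, homogeneousComponent_of_mem ((mem_homogeneousSubmodule _ _).2 hF),
          if_pos rfl]
      rw [h9, hcomp]
      exact Ideal.add_mem _ h3 (Ideal.mul_mem_right _ _ h4)
    · exact hB (d + 1) F hge hF h

/-- the containment in large characteristic, infinite perfect fields -/
theorem perfL (p : ℕ) [Fact p.Prime] [CharP k p] [PerfectRing k p] [Infinite k]
    (P : Fin s → Fin (n + 1) → k) (hP : ∀ i, P i ≠ 0) (hn : 2 ≤ n) (hs : 0 < s)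
    (w : Fin s → ℕ) {t : ℕ} (ht : 0 < t) (hbig : 2 * t * (∑ i, t * (w i + n - 1) + 1) < p) :
    (⨅ i, linI (P i) ^ (t * (w i + n - 1))) ≤ irr k n ^ t * (⨅ i, linI (P i) ^ (w i)) ^ t := by
  intro F hF
  rw [Submodule.mem_iInf] at hF
  rw [← sum_homogeneousComponent F]
  apply Ideal.sum_mem
  intro d _
  refine gen_deg P hP (fun i => t * (w i + n - 1)) _ ?_ d _
    (homogeneousComponent_isHomogeneous d F) fun i => component_mem (P i) _ (hF i) d
  intro d G hd hG h
  apply Pool.Agent.H915R3.ContT2.taskT2 k n s t d P w _ ht hP hG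
  refine contP p n s t d P w G hn hs ht ?_ hP hG fun i =>
    Ideal.pow_right_mono (linI_le_mI (P i)) _ (h i)
  refine lt_of_le_of_lt ?_ hbig
  exact Nat.mul_le_mul_left _ (by omega)

end

/-- the containment in large characteristic -/
theorem anyL {K : Type u} [Field K] {n s : ℕ} (p : ℕ) [CharP K p] (hp : p.Prime) (hn : 2 ≤ n)
    (hs : 0 < s) (P : Fin s → Fin (n + 1) → K) (hP : ∀ i, P i ≠ 0) (w : Fin s → ℕ) {t : ℕ}
    (ht : 0 < t) (hbig : 2 * t * (∑ i, t * (w i + n - 1) + 1) < p) :
    (⨅ i, linI (P i) ^ (t * (w i + n - 1))) ≤ irr K n ^ t * (⨅ i, linI (P i) ^ (w i)) ^ t := by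
  have : Fact p.Prime := ⟨hp⟩
  have : CharP (AlgebraicClosure K) p :=
    charP_of_injective_algebraMap (algebraMap K (AlgebraicClosure K)).injective p
  apply descentM (k := AlgebraicClosure K) P hP
  refine perfL p (fun i j => algebraMap K (AlgebraicClosure K) (P i j)) (fun i h => ?_) hn
    hs w ht hbig
  apply hP i
  funext j
  have := congrFun h j
  simpa using this

end Pool.Agent.TH308.HHp
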