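import Pool.Agent.TH308.HHp.Main

/-!
Components of higher level.
-/

set_option autoImplicit false
set_option linter.unusedSectionVars false

universe u

namespace Pool.Agent.TH308.HHp

open MvPolynomial Pool.Agent.H737R3 Pool.Agent.H737R3.Cont Pool.Agent.Chud Pool.Agent.TH501.HHF

section

variable {k : Type u} [Field k] (p : ℕ) [Fact p.Prime] [CharP k p] [PerfectRing k p] {N : ℕ}

/-- the values of a functional on the components of level `E` -/
noncomputable def lamE (L : MvPolynomial (Fin N) k →ₗ[k] k) : ℕ → MvPolynomial (Fin N) k →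
    MvPolynomial (Fin N) k
  | 0, G => C (L G)
  | E + 1, G => ∑ f : Fin N → Fin p, (lamE L E (cmp p (tf f) G)) ^ p * monomial (tf f) 1

theorem lamE_succ (L : MvPolynomial (Fin N) k →ₗ[k] k) (E : ℕ) (G : MvPolynomial (Fin N) k) :
    lamE p L (E + 1) G =
      ∑ f : Fin N → Fin p, (lamE p L E (cmp p (tf f) G)) ^ p * monomial (tf f) 1 := rfl

theorem cmp_lamE (L : MvPolynomial (Fin N) k →ₗ[k] k) (E : ℕ) (G : MvPolynomial (Fin N) k)
    {b : Fin N →₀ ℕ} (hb : ∀ i, b i < p) :
    cmp p b (lamE p L (E + 1) G) = lamE p L E (cmp p b G) := by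
  classical
  obtain ⟨g, hg⟩ := exists_tf hb
  have h0 : ∀ f : Fin N → Fin p, cmp p b (monomial (tf f) (1 : k)) = if f = g then 1 else 0 := by
    intro f
    have h1 : md p (tf f) = tf f := by
      have := md_eq p (b := tf f) (u := 0) (tf_lt f)
      rwa [smul_zero, zero_add] at this
    have h2 : dv p (tf f) = 0 := by
      have := dv_eq p (b := tf f) (u := 0) (tf_lt f)
      rwa [smul_zero, zero_add] at this
    rw [cmp_monomial hb, h1, h2, ← hg]
    by_cases hfg : f = g
    · subst hfg
      rw [if_pos rfl, if_pos rfl]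
      have : ifr p (1 : k) = 1 := map_one _
      rw [this]
      rfl
    · rw [if_neg hfg, if_neg (fun h => hfg (tf_inj h))]
  rw [lamE_succ, cmp_sum hb, Finset.sum_eq_single g]
  · rw [cmp_pow_mul hb, h0, if_pos rfl, mul_one, hg]
  · intro f _ hf
    rw [cmp_pow_mul hb, h0, if_neg hf, mul_zero]
  · intro h
    exact absurd (Finset.mem_univ g) h

theorem lamE_zero' (L : MvPolynomial (Fin N) k →ₗ[k] k) (E : ℕ) :
    lamE p L E (0 : MvPolynomial (Fin N) k) = 0 := by
  induction E with
  | zero =>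
    show C (L 0) = 0
    rw [map_zero, map_zero]
  | succ E ih =>
    rw [lamE_succ]
    apply Finset.sum_eq_zero
    intro f _
    rw [cmp_zero (tf_lt f), ih, zero_pow (Fact.out : p.Prime).ne_zero, zero_mul]

theorem lamE_small {L : MvPolynomial (Fin N) k →ₗ[k] k} {ν : ℕ}
    (hLν : ∀ (f : MvPolynomial (Fin N) k) (l : ℕ), f.IsHomogeneous l → l ≠ ν → L f = 0) (E : ℕ) :
    ∀ (G : MvPolynomial (Fin N) k) (D : ℕ), G.IsHomogeneous D → D < p ^ E * ν →
      lamE p L E G = 0 := by
  induction E with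
  | zero =>
    intro G D hG hD
    show C (L G) = 0
    rw [hLν G D hG (by rw [pow_zero, one_mul] at hD; omega), map_zero]
  | succ E ih =>
    intro G D hG hD
    rw [lamE_succ]
    apply Finset.sum_eq_zero
    intro f _
    by_cases h0 : cmp p (tf f) G = 0
    · rw [h0, lamE_zero', zero_pow (Fact.out : p.Prime).ne_zero, zero_mul]
    · obtain ⟨l, hl, hlh⟩ := cmp_homog' (tf_lt f) hG h0
      rw [ih _ l hlh, zero_pow (Fact.out : p.Prime).ne_zero, zero_mul]
      have h1 : p * l < p * (p ^ E * ν) := by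
        have : p ^ (E + 1) * ν = p * (p ^ E * ν) := by rw [pow_succ]; ring
        omega
      exact lt_of_mul_lt_mul_left h1 (Nat.zero_le _)

theorem lamE_homog {L : MvPolynomial (Fin N) k →ₗ[k] k} {ν : ℕ}
    (hLν : ∀ (f : MvPolynomial (Fin N) k) (l : ℕ), f.IsHomogeneous l → l ≠ ν → L f = 0) (E : ℕ) :
    ∀ (G : MvPolynomial (Fin N) k) (D j : ℕ), G.IsHomogeneous D → D = p ^ E * ν + j →
      (lamE p L E G).IsHomogeneous j := by
  induction E with
  | zero =>
    intro G D j hG hD
    show (C (L G)).IsHomogeneous j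
    rw [pow_zero, one_mul] at hD
    rcases Nat.eq_zero_or_pos j with h | h
    · subst h
      exact isHomogeneous_C _ _
    · rw [hLν G D hG (by omega), map_zero]
      exact isHomogeneous_zero _ _ _
  | succ E ih =>
    intro G D j hG hD
    rw [lamE_succ]
    apply IsHomogeneous.sum
    intro f _
    have hp := (Fact.out : p.Prime)
    by_cases h0 : cmp p (tf f) G = 0
    · rw [h0, lamE_zero', zero_pow hp.ne_zero, zero_mul]
      exact isHomogeneous_zero _ _ _
    · obtain ⟨l, hl, hlh⟩ := cmp_homog' (tf_lt f) hG h0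
      have h1 : p ^ (E + 1) * ν = p * (p ^ E * ν) := by rw [pow_succ]; ring
      rcases Nat.lt_or_ge l (p ^ E * ν) with hlt | hge
      · rw [lamE_small p hLν E _ l hlh hlt, zero_pow hp.ne_zero, zero_mul]
        exact isHomogeneous_zero _ _ _
      · obtain ⟨j', rfl⟩ : ∃ j', l = p ^ E * ν + j' := ⟨l - p ^ E * ν, by omega⟩
        have h2 := (ih _ _ j' hlh rfl).pow p
        have h3 : (monomial (tf f) (1 : k)).IsHomogeneous (tf f).degree :=
          isHomogeneous_monomial _ rfl
        have h4 := h2.mul h3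
        have h5 : j' * p + (tf f).degree = j := by
          rw [mul_add] at hl
          have : j' * p = p * j' := mul_comm _ _
          omega
        rwa [h5] at h4

/-- the relation modulo the Frobenius power of the kernel -/
theorem rel {I : Ideal (MvPolynomial (Fin N) k)} {L : MvPolynomial (Fin N) k →ₗ[k] k}
    (hL : ∀ f ∈ I, ∀ i, L (X i * f) = 0) {g : MvPolynomial (Fin N) k} (hg : g ∈ I) (E : ℕ) :
    ∀ G ∈ froE p E I, (C (L g)) ^ (p ^ E) * G - g ^ (p ^ E) * lamE p L E G ∈
      froE p E (kerI I L hL) := by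
  induction E with
  | zero =>
    intro G hG
    have hG' : G ∈ I := hG
    show (C (L g)) ^ (p ^ 0) * G - g ^ (p ^ 0) * C (L G) ∈ kerI I L hL
    rw [pow_zero, pow_one, pow_one, mem_kerI]
    refine ⟨I.sub_mem (I.mul_mem_left _ hG') (I.mul_mem_right _ hg), ?_⟩
    rw [map_sub, C_mul', map_smul, mul_comm g, C_mul', map_smul, smul_eq_mul, smul_eq_mul,
      mul_comm, sub_self]
  | succ E ih =>
    intro G hG
    show _ ∈ fro p (froE p E (kerI I L hL))
    apply fro_of_cmp_mem
    intro c hc
    have h1 : G ∈ fro p (froE p E I) := hG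
    have h2 := ih _ (cmp_mem_of_fro h1 hc)
    rw [cmp_sub' p hc, pow_succ, pow_mul, pow_mul, cmp_pow_mul hc, cmp_pow_mul hc,
      cmp_lamE p L E G hc]
    exact h2

/-- a functional which does not vanish on a component -/
theorem lamE_ne_zero {J : Ideal (MvPolynomial (Fin N) k)}
    {I : Ideal (MvPolynomial (Fin N) k)} (E : ℕ) :
    ∀ G : MvPolynomial (Fin N) k, ∀ d, G.IsHomogeneous d → G ∈ froE p E I → G ∉ froE p E J →
      ∃ g ∈ I, g ∉ J ∧ (∃ l, g.IsHomogeneous l ∧ p ^ E * l ≤ d) ∧
        ∀ L : MvPolynomial (Fin N) k →ₗ[k] k, L g ≠ 0 → lamE p L E G ≠ 0 := by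
  induction E with
  | zero =>
    intro G d hGd hI hJ
    refine ⟨G, hI, hJ, ⟨d, hGd, by rw [pow_zero, one_mul]⟩, ?_⟩
    intro L hL h
    have h1 : C (L G) = (0 : MvPolynomial (Fin N) k) := h
    rw [← map_zero C] at h1
    exact hL (C_injective _ _ h1)
  | succ E ih =>
    intro G d hGd hI hJ
    have h1 : G ∈ fro p (froE p E I) := hI
    have h2 : ∃ b : Fin N →₀ ℕ, (∀ i, b i < p) ∧ cmp p b G ∉ froE p E J := by
      by_contra hcon
      push Not at hcon
      exact hJ (fro_of_cmp_mem hcon)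
    obtain ⟨b, hb, hbJ⟩ := h2
    have h0 : cmp p b G ≠ 0 := by
      intro h
      apply hbJ
      rw [h]
      exact Ideal.zero_mem _
    obtain ⟨l', hl', hlh'⟩ := cmp_homog' hb hGd h0
    obtain ⟨g, hgI, hgJ, ⟨l, hl, hlE⟩, hg⟩ := ih _ l' hlh' (cmp_mem_of_fro h1 hb) hbJ
    refine ⟨g, hgI, hgJ, ⟨l, hl, ?_⟩, ?_⟩
    · have h3 : p * (p ^ E * l) ≤ p * l' := Nat.mul_le_mul_left _ hlE
      have h4 : p ^ (E + 1) * l = p * (p ^ E * l) := by rw [pow_succ]; ring
      omega
    · intro L hL h
      apply hg L hL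
      rw [← cmp_lamE p L E G hb, h, cmp_zero hb]

theorem froE_le_pow (E : ℕ) (I : Ideal (MvPolynomial (Fin N) k)) :
    froE p E I ≤ I ^ (p ^ E) := by
  induction E with
  | zero =>
    rw [pow_zero, pow_one]
    exact le_refl I
  | succ E ih =>
    show fro p (froE p E I) ≤ _
    unfold fro
    rw [Ideal.map_le_iff_le_comap]
    intro a ha
    rw [Ideal.mem_comap, frobenius_def, pow_succ, pow_mul]
    exact Ideal.pow_mem_pow (ih ha) p

theorem froE_sup' (E : ℕ) (I J : Ideal (MvPolynomial (Fin N) k)) :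
    froE p E (I ⊔ J) = froE p E I ⊔ froE p E J := by
  induction E with
  | zero => rfl
  | succ E ih =>
    show fro p (froE p E (I ⊔ J)) = fro p (froE p E I) ⊔ fro p (froE p E J)
    rw [ih]
    unfold fro
    rw [Ideal.map_sup]

theorem froE_span (E : ℕ) (S : Set (MvPolynomial (Fin N) k)) :
    froE p E (Ideal.span S) = Ideal.span ((fun f => f ^ (p ^ E)) '' S) := by
  induction E with
  | zero => simp [froE]
  | succ E ih =>
    show fro p (froE p E (Ideal.span S)) = _
    rw [ih]
    unfold fro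
    rw [Ideal.map_span, ← Set.image_comp]
    congr 1
    apply Set.image_congr
    intro f _
    rw [Function.comp_apply, frobenius_def, ← pow_mul, ← pow_succ]

end

end Pool.Agent.TH308.HHp
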