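import Pool.Agent.TH308.HHp.Ind
import Pool.Agent.TH308.HHp.Lev

/-!
The containment for powers of the characteristic.
-/

set_option autoImplicit false
set_option linter.unusedSectionVars false

universe u

namespace Pool.Agent.TH308.HHp

open MvPolynomial Pool.Agent.H737R3 Pool.Agent.H737R3.Cont Pool.Agent.Chud Pool.Agent.TH501.HHF

section graded

attribute [local instance] MvPolynomial.gradedAlgebra

variable {k : Type u} [Field k] {n s : ℕ}

theorem irr_homog : (irr k n).IsHomogeneous (homogeneousSubmodule (Fin (n + 1)) k) := by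
  unfold irr
  apply Ideal.homogeneous_span
  rintro _ ⟨j, rfl⟩
  exact ⟨1, isHomogeneous_X k j⟩

theorem pow_homog {I : Ideal (MvPolynomial (Fin (n + 1)) k)}
    (h : I.IsHomogeneous (homogeneousSubmodule (Fin (n + 1)) k)) (m : ℕ) :
    (I ^ m).IsHomogeneous (homogeneousSubmodule (Fin (n + 1)) k) := by
  induction m with
  | zero =>
    rw [pow_zero, Ideal.one_eq_top]
    exact Ideal.IsHomogeneous.top _
  | succ m ih =>
    rw [pow_succ]
    exact ih.mul h

theorem comp_mem_mul {I : Ideal (MvPolynomial (Fin (n + 1)) k)}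
    (h : I.IsHomogeneous (homogeneousSubmodule (Fin (n + 1)) k)) (a m : ℕ)
    {f : MvPolynomial (Fin (n + 1)) k} (hf : f ∈ irr k n ^ a * I ^ m) (d : ℕ) :
    homogeneousComponent d f ∈ irr k n ^ a * I ^ m :=
  homogeneousComponent_mem_of_mem ((pow_homog irr_homog a).mul (pow_homog h m)) hf d

theorem iInf_homog (P : Fin s → Fin (n + 1) → k) (w : Fin s → ℕ) :
    (⨅ i, linI (P i) ^ (w i)).IsHomogeneous (homogeneousSubmodule (Fin (n + 1)) k) :=
  Ideal.IsHomogeneous.iInf fun i => linI_pow_homog (P i) (w i)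

end graded

section

variable {k : Type u} [Field k] {n s : ℕ}

theorem mem_irr_pow {f : MvPolynomial (Fin (n + 1)) k} {i t : ℕ} (hf : f.IsHomogeneous i)
    (hi : t ≤ i) : f ∈ irr k n ^ t := by
  rw [f.as_sum]
  apply Ideal.sum_mem
  intro c hc
  have h1 : c.degree = i := by
    have := hf (mem_support_iff.1 hc)
    rwa [Finsupp.degree_eq_weight_one]
  have h2 : (monomial c (coeff c f) : MvPolynomial (Fin (n + 1)) k) =
      C (coeff c f) * monomial c 1 := by rw [C_mul_monomial, mul_one]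
  rw [h2]
  apply Ideal.mul_mem_left
  exact Ideal.pow_le_pow_right (by omega) (monomial_mem_irr c)

variable (p : ℕ) [Fact p.Prime] [CharP k p] [PerfectRing k p]

theorem asm (P : Fin s → Fin (n + 1) → k) (w : Fin s → ℕ) (E1 : ℕ)
    {F : MvPolynomial (Fin (n + 1)) k} {d ν ρ : ℕ} (hFd : F.IsHomogeneous d)
    (hd : d = p ^ E1 * ν + ρ)
    (h : F ∈ froE p E1 (irr k n * (⨅ i, linI (P i) ^ (w i)) ⊔
      Ideal.span {f | f ∈ (⨅ i, linI (P i) ^ (w i)) ∧ ∃ l, l < ν ∧ f.IsHomogeneous l})) :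
    F ∈ irr k n ^ (p ^ E1) * (⨅ i, linI (P i) ^ (w i)) ^ (p ^ E1) := by
  classical
  set I : Ideal (MvPolynomial (Fin (n + 1)) k) := ⨅ i, linI (P i) ^ (w i) with hI
  rw [froE_sup', froE_span, Submodule.mem_sup] at h
  obtain ⟨a, ha, b, hb, hab⟩ := h
  have h1 : a ∈ irr k n ^ (p ^ E1) * I ^ (p ^ E1) := by
    have := froE_le_pow p E1 _ ha
    rwa [mul_pow] at this
  have h2 : ∀ h, homogeneousComponent d (h * b) ∈ irr k n ^ (p ^ E1) * I ^ (p ^ E1) := by
    refine Submodule.span_induction (p := fun x _ => ∀ h, homogeneousComponent d (h * x) ∈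
      irr k n ^ (p ^ E1) * I ^ (p ^ E1)) ?_ ?_ ?_ ?_ hb
    · rintro _ ⟨f, ⟨hf1, l, hl, hf2⟩, rfl⟩ h
      show homogeneousComponent d (h * f ^ (p ^ E1)) ∈ _
      have h0 : homogeneousComponent d (h * f ^ (p ^ E1)) = homogeneousComponent d
          ((∑ i ∈ Finset.range (h.totalDegree + 1), homogeneousComponent i h) *
            f ^ (p ^ E1)) := by rw [sum_homogeneousComponent h]
      rw [h0, Finset.sum_mul, map_sum]
      apply Ideal.sum_mem
      intro i _
      have h3 : (homogeneousComponent i h * f ^ (p ^ E1)).IsHomogeneous (i + l * p ^ E1) :=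
        (homogeneousComponent_isHomogeneous i h).mul (hf2.pow _)
      rw [homogeneousComponent_of_mem ((mem_homogeneousSubmodule _ _).2 h3)]
      split_ifs with h4
      · refine Ideal.mul_mem_mul (mem_irr_pow (homogeneousComponent_isHomogeneous i h) ?_)
          (Ideal.pow_mem_pow hf1 _)
        have h5 : p ^ E1 * (l + 1) ≤ p ^ E1 * ν := Nat.mul_le_mul_left _ hl
        have h6 : p ^ E1 * (l + 1) = l * p ^ E1 + p ^ E1 := by ring
        omega
      · exact Ideal.zero_mem _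
    · intro h
      rw [mul_zero, map_zero]
      exact Ideal.zero_mem _
    · intro x y _ _ hx hy h
      rw [mul_add, map_add]
      exact Ideal.add_mem _ (hx h) (hy h)
    · intro a x _ hx h
      rw [smul_eq_mul, ← mul_assoc]
      exact hx (h * a)
  have h3 : F = homogeneousComponent d a + homogeneousComponent d (1 * b) := by
    rw [one_mul, ← map_add, hab, homogeneousComponent_of_mem ((mem_homogeneousSubmodule _ _).2 hFd),
      if_pos rfl]
  rw [h3]
  exact Ideal.add_mem _ (comp_mem_mul (iInf_homog P w) _ _ h1 d) (h2 1)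

/-- outside `M ^ t * I ^ t` the form divides a power of a form of small degree -/
theorem mlE [Infinite k] (E1 : ℕ) (P : Fin s → Fin (n + 1) → k) (hP : ∀ i, P i ≠ 0)
    (W : Fin s → ℕ) (hn : 2 ≤ n) {d ν ρ : ℕ} {F : MvPolynomial (Fin (n + 1)) k} (hF0 : F ≠ 0)
    (hFd : F.IsHomogeneous d) (hF : ∀ i, F ∈ mI (P i) ^ (p ^ E1 * W i))
    (hd : d = p ^ E1 * ν + ρ) (hρ : ρ < p ^ E1)
    (hnot : F ∉ irr k n ^ (p ^ E1) * (⨅ i, linI (P i) ^ (W i - (n - 1))) ^ (p ^ E1)) :
    ∃ (ψ : MvPolynomial (Fin (n + 1)) k) (E : ℕ), ψ ≠ 0 ∧ ψ.IsHomogeneous ρ ∧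
      F ∣ ψ ^ (p ^ E) := by
  classical
  set I : Ideal (MvPolynomial (Fin (n + 1)) k) := ⨅ i, linI (P i) ^ (W i - (n - 1)) with hI
  have memI : ∀ f, f ∈ I ↔ ∀ i, f ∈ linI (P i) ^ (W i - (n - 1)) := by
    intro f
    rw [hI, Submodule.mem_iInf]
  set J : Ideal (MvPolynomial (Fin (n + 1)) k) := irr k n * I ⊔
      Ideal.span {f | f ∈ I ∧ ∃ l, l < ν ∧ f.IsHomogeneous l} with hJ
  have hFJ : F ∉ froE p E1 J := fun h => hnot (asm p P _ E1 hFd hd h)
  have hFI : F ∈ froE p E1 I := mem_froE' p P hP W (by omega) E1 d F hFd (fun i =>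
      Ideal.pow_le_pow_right (Nat.sub_le _ _) (hF i))
  obtain ⟨g, hgI, hgJ, ⟨l, hgl, hlE⟩, hgL⟩ := lamE_ne_zero p E1 F d hFd hFI hFJ
  have ht0 : 0 < p ^ E1 := Nat.pow_pos (Fact.out : p.Prime).pos
  have hlν : l = ν := by
    have h1 : l < ν + 1 := by
      have h2 : p ^ E1 * l < p ^ E1 * (ν + 1) := by
        rw [mul_add, mul_one]
        omega
      exact lt_of_mul_lt_mul_left h2 (Nat.zero_le _)
    have h3 : ¬ l < ν := by
      intro h4
      apply hgJ
      exact Submodule.mem_sup_right (Ideal.subset_span ⟨hgI, l, h4, hgl⟩)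
    omega
  subst hlν
  obtain ⟨L0, hL1, hL2⟩ := exists_functional hgJ
  set L : MvPolynomial (Fin (n + 1)) k →ₗ[k] k := L0.comp (homogeneousComponent l) with hL
  have hLν : ∀ (f : MvPolynomial (Fin (n + 1)) k) (l' : ℕ), f.IsHomogeneous l' → l' ≠ l →
      L f = 0 := by
    intro f l' hf hne
    rw [hL, LinearMap.comp_apply,
      homogeneousComponent_of_mem ((mem_homogeneousSubmodule _ _).2 hf), if_neg (Ne.symm hne),
      map_zero]
  have hLg : L g ≠ 0 := by
    rw [hL, LinearMap.comp_apply,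
      homogeneousComponent_of_mem ((mem_homogeneousSubmodule _ _).2 hgl), if_pos rfl]
    exact hL1
  have hLI : ∀ f ∈ I, ∀ i, L (X i * f) = 0 := by
    intro f hf i
    rcases Nat.eq_zero_or_pos l with h0 | h0
    · have : homogeneousComponent l (X i * f) = 0 := by
        rw [h0, homogeneousComponent_zero]
        have h2 : coeff 0 (X i * f) = 0 := by
          rw [coeff_X_mul', if_neg (by simp)]
        rw [h2, map_zero]
      rw [hL, LinearMap.comp_apply, this, map_zero]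
    · obtain ⟨l', hl'⟩ : ∃ l', l = l' + 1 := ⟨l - 1, by omega⟩
      rw [hL, LinearMap.comp_apply, hl', homogeneousComponent_X_mul]
      apply hL2
      refine Submodule.mem_sup_left
        (Ideal.mul_mem_mul (Ideal.subset_span (Set.mem_range_self i)) ?_)
      rw [memI]
      intro i'
      exact component_mem (P i') _ ((memI _).1 hf i') l'
  obtain ⟨E, hE⟩ := gen' p P hP W hn E1 hF0 hFd hF
    (le_kerI_sup hLI hgI hLg) (kerI_colon hLI hgI hLg) (lamE_homog p hLν E1 F d ρ hFd hd) hρ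
    (rel p hLI hgI E1 F hFI)
  exact ⟨_, E, hgL L hLg, lamE_homog p hLν E1 F d ρ hFd hd, hE⟩

/-- forms without factors which are `t`-th powers -/
theorem freeE [Infinite k] (E1 : ℕ) (hpn : p ^ E1 ≤ n + 2) (P : Fin s → Fin (n + 1) → k)
    (hP : ∀ i, P i ≠ 0) (W : Fin s → ℕ) (hn : 2 ≤ n) {d : ℕ} (hpd : p ^ E1 ≤ d)
    {F : MvPolynomial (Fin (n + 1)) k} (hF0 : F ≠ 0) (hFd : F.IsHomogeneous d)
    (hF : ∀ i, F ∈ mI (P i) ^ (p ^ E1 * W i)) (hfree : ∀ π, Prime π → ¬ π ^ (p ^ E1) ∣ F) :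
    F ∈ irr k n ^ (p ^ E1) * (⨅ i, linI (P i) ^ (W i - (n - 1))) ^ (p ^ E1) := by
  have hp := (Fact.out : p.Prime)
  have ht0 : 0 < p ^ E1 := Nat.pow_pos hp.pos
  by_cases hW : ∀ i, W i ≤ n - 1
  · have h1 : (⨅ i, linI (P i) ^ (W i - (n - 1))) = ⊤ := by
      rw [iInf_eq_top]
      intro i
      rw [Nat.sub_eq_zero_of_le (hW i), pow_zero, Ideal.one_eq_top]
    rw [h1, Ideal.top_pow, Ideal.mul_top]
    exact mem_irr_pow hFd hpd
  push Not at hW
  obtain ⟨i0, hi0⟩ := hW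
  by_contra hnot
  obtain ⟨m, hm⟩ : ∃ m, p ^ E1 = m + 1 := ⟨p ^ E1 - 1, by omega⟩
  set ν := d / p ^ E1 with hν
  set ρ := d % p ^ E1 with hρ
  have hd : d = p ^ E1 * ν + ρ := (Nat.div_add_mod _ _).symm
  have hρt : ρ < p ^ E1 := Nat.mod_lt _ ht0
  obtain ⟨ψ, E, hψ0, hψh, hE⟩ := mlE p E1 P hP W hn hF0 hFd hF hd hρt hnot
  have h1 : F ∣ ψ ^ m := dvd_pow_pred hF0 (by rw [← hm]; exact hfree) hE
  obtain ⟨r, hr⟩ := h1
  have hr0 : r ≠ 0 := by
    rintro rfl
    rw [mul_zero] at hr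
    exact pow_ne_zero m hψ0 hr
  have h2 := (hψh.pow m).totalDegree (pow_ne_zero m hψ0)
  rw [hr, totalDegree_mul_of_isDomain hF0 hr0, hFd.totalDegree hF0] at h2
  have h3 : p ^ E1 * n ≤ d := by
    have h4 := (mem_mI_pow_iff (P i0) hF0 _).1 (hF i0)
    have h5 := mu_le_totalDegree (P i0) hF0
    rw [hFd.totalDegree hF0] at h5
    have h6 : p ^ E1 * n ≤ p ^ E1 * W i0 := Nat.mul_le_mul_left _ (by omega)
    omega
  have h7 : n ≤ ν := by
    by_contra hcon
    push Not at hcon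
    have h8 : p ^ E1 * (ν + 1) ≤ p ^ E1 * n := Nat.mul_le_mul_left _ hcon
    rw [mul_add, mul_one] at h8
    omega
  rw [hm] at hd hρt hpn
  have h9 : (m + 1) * ν + ρ ≤ ρ * m := by omega
  have h10 : (m + 1) * n ≤ (m + 1) * ν := Nat.mul_le_mul_left _ h7
  rcases Nat.lt_or_ge m 2 with h11 | h11
  · interval_cases m
    · omega
    · omega
  · obtain ⟨m', rfl⟩ : ∃ m', m = m' + 1 := ⟨m - 1, by omega⟩
    have h12 : ρ * m' ≤ (m' + 1) * m' := Nat.mul_le_mul_right _ (by omega)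
    have h13 : (m' + 1 + 1) * m' ≤ (m' + 1 + 1) * n := Nat.mul_le_mul_left _ (by omega)
    have h14 : ρ * (m' + 1) = ρ * m' + ρ := by ring
    have h15 : (m' + 1 + 1) * m' = (m' + 1) * m' + m' := by ring
    omega

include p in
/-- the containment for forms of degree at least `t` -/
theorem twE [Infinite k] (E1 : ℕ) (hpn : p ^ E1 ≤ n + 2) (P : Fin s → Fin (n + 1) → k)
    (hP : ∀ i, P i ≠ 0) (hn : 2 ≤ n) : ∀ (d : ℕ) (W : Fin s → ℕ)
    (F : MvPolynomial (Fin (n + 1)) k),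
    F.IsHomogeneous d → p ^ E1 ≤ d → (∀ i, F ∈ mI (P i) ^ (p ^ E1 * W i)) →
    F ∈ irr k n ^ (p ^ E1) * (⨅ i, linI (P i) ^ (W i - (n - 1))) ^ (p ^ E1) := by
  intro d
  induction d using Nat.strong_induction_on with
  | _ d ih =>
  intro W F hFd hpd hF
  have hp0 : 0 < p ^ E1 := Nat.pow_pos (Fact.out : p.Prime).pos
  by_cases hF0 : F = 0
  · rw [hF0]
    exact Ideal.zero_mem _
  by_cases hfree : ∀ π, Prime π → ¬ π ^ (p ^ E1) ∣ F
  · exact freeE p E1 hpn P hP W hn hpd hF0 hFd hF hfree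
  push Not at hfree
  obtain ⟨π, hπ, F', hF'⟩ := hfree
  have hπ0 : π ≠ 0 := hπ.ne_zero
  have hF'0 : F' ≠ 0 := by
    rintro rfl
    rw [mul_zero] at hF'
    exact hF0 hF'
  have hπF : π ∣ F := (dvd_pow_self π hp0.ne').trans ⟨F', hF'⟩
  have hπh : π.IsHomogeneous π.totalDegree := homog_of_dvd hFd hF0 hπF
  have hF'h : F'.IsHomogeneous F'.totalDegree :=
    homog_of_dvd hFd hF0 ⟨π ^ (p ^ E1), by rw [hF', mul_comm]⟩
  have hπ1 : 1 ≤ π.totalDegree := by
    by_contra hcon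
    have h1 : π.totalDegree = 0 := by omega
    apply hπ.not_isUnit
    have h2 := totalDegree_eq_zero_iff_eq_C.1 h1
    have h3 : coeff 0 π ≠ 0 := by
      intro h4
      rw [h4, C_0] at h2
      exact hπ0 h2
    rw [h2]
    exact (isUnit_iff_ne_zero.2 h3).map C
  have hdeg : d = p ^ E1 * π.totalDegree + F'.totalDegree := by
    have h1 := hFd.totalDegree hF0
    have h2 := (hπh.pow (p ^ E1)).totalDegree (pow_ne_zero _ hπ0)
    rw [hF', totalDegree_mul_of_isDomain (pow_ne_zero _ hπ0) hF'0, h2] at h1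
    rw [← h1, mul_comm (p ^ E1)]
  have hmu : ∀ i, mu (P i) F = p ^ E1 * mu (P i) π + mu (P i) F' := by
    intro i
    rw [hF', mu_mul _ (pow_ne_zero _ hπ0) hF'0, Pool.Agent.H580C.BL_mu_pow _ hπ0]
  have hord : ∀ i, p ^ E1 * (W i - mu (P i) π) ≤ mu (P i) F' := by
    intro i
    have h1 := (mem_mI_pow_iff (P i) hF0 _).1 (hF i)
    rw [hmu i] at h1
    rw [Nat.mul_sub]
    omega
  have hF'm : ∀ i, F' ∈ mI (P i) ^ (p ^ E1 * (W i - mu (P i) π)) :=
    fun i => (mem_mI_pow_iff (P i) hF'0 _).2 (hord i)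
  have hpπ : p ^ E1 * 1 ≤ p ^ E1 * π.totalDegree := Nat.mul_le_mul_left _ hπ1
  rcases Nat.lt_or_ge F'.totalDegree (p ^ E1) with hlt | hge
  · -- the other factor has small degree
    have h1 : ∀ i, π ∈ mI (P i) ^ (W i) := by
      intro i
      rw [mem_mI_pow_iff (P i) hπ0]
      by_contra hcon
      push Not at hcon
      have h2 : 1 ≤ W i - mu (P i) π := by omega
      have h3 : p ^ E1 * 1 ≤ p ^ E1 * (W i - mu (P i) π) := Nat.mul_le_mul_left _ h2
      have h4 := hord i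
      have h5 := mu_le_totalDegree (P i) hF'0
      omega
    have h2 := t1 p P hP W hn hπ1 hπh h1
    rw [hF', ← mul_pow]
    exact Ideal.mul_mem_right _ _ (Ideal.pow_mem_pow h2 _)
  · have h1 := ih F'.totalDegree (by omega) (fun i => W i - mu (P i) π) F' hF'h hge hF'm
    have h2 : π ^ (p ^ E1) ∈ (Ideal.span {π}) ^ (p ^ E1) :=
      Ideal.pow_mem_pow (Ideal.mem_span_singleton_self π) _
    have h3 := Ideal.mul_mem_mul h2 h1
    rw [mul_left_comm, ← mul_pow (Ideal.span {π})] at h3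
    rw [hF']
    exact Ideal.mul_mono_right (Ideal.pow_right_mono (mul_iInf_le P hP W hπh hπ0) _) h3

include p in
/-- the containment over infinite perfect fields -/
theorem perfE [Infinite k] (E1 : ℕ) (hpn : p ^ E1 ≤ n + 2) (P : Fin s → Fin (n + 1) → k)
    (hP : ∀ i, P i ≠ 0) (hn : 2 ≤ n) (hs : 0 < s) (w : Fin s → ℕ) :
    (⨅ i, linI (P i) ^ (p ^ E1 * (w i + n - 1))) ≤
      irr k n ^ (p ^ E1) * (⨅ i, linI (P i) ^ (w i)) ^ (p ^ E1) := by
  intro F hF
  rw [Submodule.mem_iInf] at hF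
  rw [← sum_homogeneousComponent F]
  apply Ideal.sum_mem
  intro d _
  set G := homogeneousComponent d F with hG
  have hGd : G.IsHomogeneous d := homogeneousComponent_isHomogeneous d F
  have hGm : ∀ i, G ∈ mI (P i) ^ (p ^ E1 * (w i + n - 1)) := fun i =>
    Ideal.pow_right_mono (linI_le_mI (P i)) _ (component_mem (P i) _ (hF i) d)
  by_cases hG0 : G = 0
  · rw [hG0]
    exact Ideal.zero_mem _
  have hpd : p ^ E1 ≤ d := by
    have h1 := (mem_mI_pow_iff (P ⟨0, hs⟩) hG0 _).1 (hGm ⟨0, hs⟩)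
    have h2 := mu_le_totalDegree (P ⟨0, hs⟩) hG0
    rw [hGd.totalDegree hG0] at h2
    have h3 : p ^ E1 * 1 ≤ p ^ E1 * (w ⟨0, hs⟩ + n - 1) := Nat.mul_le_mul_left _ (by omega)
    omega
  have h4 := twE p E1 hpn P hP hn d (fun i => w i + n - 1) G hGd hpd hGm
  have h5 : (fun i => linI (P i) ^ (w i + n - 1 - (n - 1))) = fun i => linI (P i) ^ (w i) := by
    funext i
    congr 1
    omega
  simp only [h5] at h4
  exact h4

end

end Pool.Agent.TH308.HHp
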