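import Pool.Agent.TH308.HHp.Mult
import Pool.Agent.H737R3.Cont.Factor

/-!
The containment for exponents equal to the characteristic.
-/

set_option autoImplicit false

universe u

namespace Pool.Agent.TH308.HHp

open MvPolynomial Pool.Agent.H737R3 Pool.Agent.H737R3.Cont Pool.Agent.Chud Pool.Agent.TH501.HHF

/-- the elements of an ideal which are killed by a functional -/
noncomputable def kerI {k : Type u} [Field k] {N : ℕ} (I : Ideal (MvPolynomial (Fin N) k))
    (L : MvPolynomial (Fin N) k →ₗ[k] k) (hL : ∀ f ∈ I, ∀ i, L (X i * f) = 0) :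
    Ideal (MvPolynomial (Fin N) k) where
  carrier := {f | f ∈ I ∧ L f = 0}
  add_mem' := by
    rintro a b ⟨h1, h2⟩ ⟨h3, h4⟩
    exact ⟨I.add_mem h1 h3, by rw [map_add, h2, h4, add_zero]⟩
  zero_mem' := ⟨I.zero_mem, map_zero L⟩
  smul_mem' := by
    rintro c f ⟨h1, h2⟩
    refine ⟨I.mul_mem_left c h1, ?_⟩
    rw [smul_eq_mul, L_mul hL c f h1, h2, mul_zero]

section

variable {k : Type u} [Field k] {N : ℕ}

theorem mem_kerI {I : Ideal (MvPolynomial (Fin N) k)} {L : MvPolynomial (Fin N) k →ₗ[k] k}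
    {hL : ∀ f ∈ I, ∀ i, L (X i * f) = 0} {f : MvPolynomial (Fin N) k} :
    f ∈ kerI I L hL ↔ f ∈ I ∧ L f = 0 := Iff.rfl

theorem le_kerI_sup {I : Ideal (MvPolynomial (Fin N) k)} {L : MvPolynomial (Fin N) k →ₗ[k] k}
    (hL : ∀ f ∈ I, ∀ i, L (X i * f) = 0) {g : MvPolynomial (Fin N) k} (hg : g ∈ I)
    (hg0 : L g ≠ 0) : I ≤ kerI I L hL ⊔ Ideal.span {g} := by
  intro f hf
  rw [Submodule.mem_sup]
  refine ⟨f - C (L f / L g) * g, ?_, C (L f / L g) * g, ?_, by ring⟩
  · rw [mem_kerI]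
    refine ⟨I.sub_mem hf (I.mul_mem_left _ hg), ?_⟩
    rw [map_sub, C_mul', map_smul, smul_eq_mul, div_mul_cancel₀ _ hg0, sub_self]
  · exact Ideal.mul_mem_left _ _ (Ideal.mem_span_singleton_self g)

theorem kerI_colon {I : Ideal (MvPolynomial (Fin N) k)} {L : MvPolynomial (Fin N) k →ₗ[k] k}
    (hL : ∀ f ∈ I, ∀ i, L (X i * f) = 0) {g : MvPolynomial (Fin N) k} (hg : g ∈ I)
    (hg0 : L g ≠ 0) : ∀ x, g * x ∈ kerI I L hL → coeff 0 x = 0 := by
  intro x hx
  have h1 := (mem_kerI.1 hx).2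
  rw [mul_comm, L_mul hL x g hg] at h1
  exact (mul_eq_zero.1 h1).resolve_right hg0

theorem exists_functional {J : Ideal (MvPolynomial (Fin N) k)} {x : MvPolynomial (Fin N) k}
    (hx : x ∉ J) : ∃ L : MvPolynomial (Fin N) k →ₗ[k] k, L x ≠ 0 ∧ ∀ f ∈ J, L f = 0 := by
  obtain ⟨L0, hL0, hL0'⟩ := Submodule.exists_dual_map_eq_bot_of_notMem
    (p := J.restrictScalars k) (x := x) hx inferInstance
  refine ⟨L0, hL0, ?_⟩
  intro f hf
  have h1 : L0 f ∈ Submodule.map L0 (J.restrictScalars k) := ⟨f, hf, rfl⟩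
  rw [hL0'] at h1
  exact (Submodule.mem_bot k).1 h1

end

section

variable {k : Type u} [Field k] (p : ℕ) [Fact p.Prime] [CharP k p] [PerfectRing k p]

theorem cmp_sub' {N : ℕ} {b : Fin N →₀ ℕ} (hb : ∀ i, b i < p) (G H : MvPolynomial (Fin N) k) :
    cmp p b (G - H) = cmp p b G - cmp p b H := by
  ext u
  rw [coeff_cmp hb, coeff_sub, coeff_sub, coeff_cmp hb, coeff_cmp hb]
  exact map_sub _ _ _

theorem cmp_lam {N : ℕ} (L : MvPolynomial (Fin N) k →ₗ[k] k) (G : MvPolynomial (Fin N) k)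
    {b : Fin N →₀ ℕ} (hb : ∀ i, b i < p) : cmp p b (lam p L G) = C (L (cmp p b G)) := by
  classical
  ext u
  rw [coeff_cmp hb, coeff_C]
  by_cases hu : u = 0
  · subst hu
    rw [if_pos rfl, smul_zero, zero_add, coeff_lam L G hb, ifr_of_pow]
  · rw [if_neg (Ne.symm hu), coeff_lam_zero]
    · exact map_zero _
    · intro h
      apply hu
      ext i
      have h1 := h i
      rw [Finsupp.add_apply, Finsupp.smul_apply, smul_eq_mul] at h1
      rw [Finsupp.coe_zero, Pi.zero_apply]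
      by_contra hne
      have : p * 1 ≤ p * u i := Nat.mul_le_mul_left _ (Nat.one_le_iff_ne_zero.2 hne)
      omega

variable {n s : ℕ}

include p in
/-- the case of exponent one -/
theorem t1 [Infinite k] (P : Fin s → Fin (n + 1) → k) (hP : ∀ i, P i ≠ 0) (W : Fin s → ℕ)
    (hn : 2 ≤ n) {d : ℕ} (hd : 1 ≤ d) {F : MvPolynomial (Fin (n + 1)) k}
    (hFd : F.IsHomogeneous d) (hF : ∀ i, F ∈ mI (P i) ^ (W i)) :
    F ∈ irr k n * ⨅ i, linI (P i) ^ (W i - (n - 1)) := by
  by_cases hF0 : F = 0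
  · rw [hF0]
    exact Ideal.zero_mem _
  by_contra hnot
  obtain ⟨L, hL1, hL2⟩ := exists_functional hnot
  set I : Ideal (MvPolynomial (Fin (n + 1)) k) := ⨅ i, linI (P i) ^ (W i - (n - 1)) with hI
  have hLI : ∀ f ∈ I, ∀ i, L (X i * f) = 0 := by
    intro f hf i
    apply hL2
    exact Ideal.mul_mem_mul (Ideal.subset_span (Set.mem_range_self i)) hf
  have hFI : F ∈ I := by
    rw [hI, Submodule.mem_iInf]
    intro i
    exact Ideal.pow_le_pow_right (Nat.sub_le _ _) (mem_linI_pow hFd (hP i) (hF i))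
  obtain ⟨E, hE⟩ := gen' p P hP W hn 0 hF0 hFd (fun i => by rw [pow_zero, one_mul]; exact hF i)
    (le_kerI_sup hLI hFI hL1) (kerI_colon hLI hFI hL1) (ψ := 1) (ρ := 0)
    (isHomogeneous_one _ _) (by rw [pow_zero]; exact one_pos) (c := 1)
    (by
      rw [pow_zero, pow_one, one_mul, mul_one, sub_self]
      exact Ideal.zero_mem _)
  rw [one_pow] at hE
  have h1 := (MvPolynomial.isUnit_iff_totalDegree_of_isReduced.mp (isUnit_of_dvd_one hE)).2
  rw [hFd.totalDegree hF0] at h1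
  omega

/-- a component outside `M * I` forces the form to divide a power of a form of small degree -/
theorem ml [Infinite k] (P : Fin s → Fin (n + 1) → k) (hP : ∀ i, P i ≠ 0) (W : Fin s → ℕ)
    (hn : 2 ≤ n) {d : ℕ} {F : MvPolynomial (Fin (n + 1)) k} (hF0 : F ≠ 0)
    (hFd : F.IsHomogeneous d) (hF : ∀ i, F ∈ mI (P i) ^ (p * W i))
    {b : Fin (n + 1) →₀ ℕ} (hb : ∀ i, b i < p) (hbp : b.degree < p)
    (hnot : cmp p b F ∉ irr k n * ⨅ i, linI (P i) ^ (W i - (n - 1))) :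
    ∃ (ψ : MvPolynomial (Fin (n + 1)) k) (E : ℕ), ψ ≠ 0 ∧ ψ.IsHomogeneous b.degree ∧
      F ∣ ψ ^ (p ^ E) := by
  classical
  have hp0 : 0 < p := (Fact.out : p.Prime).pos
  set I : Ideal (MvPolynomial (Fin (n + 1)) k) := ⨅ i, linI (P i) ^ (W i - (n - 1)) with hI
  have memI : ∀ f, f ∈ I ↔ ∀ i, f ∈ linI (P i) ^ (W i - (n - 1)) := by
    intro f
    rw [hI, Submodule.mem_iInf]
  set g := cmp p b F with hg
  have hg0 : g ≠ 0 := by
    intro h
    apply hnot
    rw [h]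
    exact Ideal.zero_mem _
  obtain ⟨ν, hν, hgν⟩ := cmp_homog' hb hFd hg0
  have hFI : F ∈ fro p I := by
    have := mem_froE' p P hP W (by omega) 1 d F hFd (fun i =>
      Ideal.pow_le_pow_right (by rw [pow_one]; exact Nat.sub_le _ _) (hF i))
    exact this
  have hcomp : ∀ c : Fin (n + 1) →₀ ℕ, (∀ i, c i < p) → cmp p c F ∈ I :=
    fun c hc => cmp_mem_of_fro hFI hc
  have hgI : g ∈ I := hcomp b hb
  obtain ⟨L0, hL1, hL2⟩ := exists_functional hnot
  set L : MvPolynomial (Fin (n + 1)) k →ₗ[k] k := L0.comp (homogeneousComponent ν) with hL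
  have hLν : ∀ (f : MvPolynomial (Fin (n + 1)) k) (l' : ℕ), f.IsHomogeneous l' → l' ≠ ν →
      L f = 0 := by
    intro f l' hf hne
    rw [hL, LinearMap.comp_apply,
      homogeneousComponent_of_mem ((mem_homogeneousSubmodule _ _).2 hf), if_neg (Ne.symm hne),
      map_zero]
  have hLg : L g ≠ 0 := by
    rw [hL, LinearMap.comp_apply,
      homogeneousComponent_of_mem ((mem_homogeneousSubmodule _ _).2 hgν), if_pos rfl]
    exact hL1
  have hLI : ∀ f ∈ I, ∀ i, L (X i * f) = 0 := by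
    intro f hf i
    rcases Nat.eq_zero_or_pos ν with h0 | h0
    · have : homogeneousComponent ν (X i * f) = 0 := by
        rw [h0, homogeneousComponent_zero]
        have h2 : coeff 0 (X i * f) = 0 := by
          rw [coeff_X_mul', if_neg (by simp)]
        rw [h2, map_zero]
      rw [hL, LinearMap.comp_apply, this, map_zero]
    · obtain ⟨l', rfl⟩ : ∃ l', ν = l' + 1 := ⟨ν - 1, by omega⟩
      rw [hL, LinearMap.comp_apply, homogeneousComponent_X_mul]
      apply hL2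
      refine Ideal.mul_mem_mul (Ideal.subset_span (Set.mem_range_self i)) ?_
      rw [memI]
      intro i'
      exact component_mem (P i') _ ((memI _).1 hf i') l'
  set ψ := lam p L F with hψ
  have hψh : ψ.IsHomogeneous b.degree := lam_homog hLν hFd hν.symm
  have hψ0 : ψ ≠ 0 := by
    intro h
    have h1 := coeff_lam (p := p) L F hb
    rw [← hψ, h, coeff_zero] at h1
    exact pow_ne_zero _ hLg h1.symm
  have hrel : (C (L g)) ^ p * F - g ^ (p ^ 1) * ψ ∈ froE p 1 (kerI I L hLI) := by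
    show (C (L g)) ^ p * F - g ^ (p ^ 1) * ψ ∈ fro p (kerI I L hLI)
    apply fro_of_cmp_mem
    intro c hc
    rw [pow_one, cmp_sub' p hc, cmp_pow_mul hc, cmp_pow_mul hc, hψ, cmp_lam p L F hc, mem_kerI]
    refine ⟨I.sub_mem (I.mul_mem_left _ (hcomp c hc)) (I.mul_mem_right _ hgI), ?_⟩
    rw [map_sub, C_mul', map_smul, mul_comm g, C_mul', map_smul, smul_eq_mul, smul_eq_mul,
      mul_comm, sub_self]
  obtain ⟨E, hE⟩ := gen' p P hP W hn 1 hF0 hFd (fun i => by rw [pow_one]; exact hF i)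
    (le_kerI_sup hLI hgI hLg) (kerI_colon hLI hgI hLg) hψh (by rwa [pow_one]) hrel
  exact ⟨ψ, E, hψ0, hψh, hE⟩

theorem monomial_mem_irr (c : Fin (n + 1) →₀ ℕ) :
    (monomial c 1 : MvPolynomial (Fin (n + 1)) k) ∈ irr k n ^ c.degree := by
  rw [monomial_eq, C_1, one_mul, Finsupp.prod_fintype _ _ (by simp)]
  have h1 : ∏ i : Fin (n + 1), (X i : MvPolynomial (Fin (n + 1)) k) ^ c i ∈
      ∏ i : Fin (n + 1), irr k n ^ c i := by
    apply Ideal.prod_mem_prod
    intro i _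
    exact Ideal.pow_mem_pow (Ideal.subset_span (Set.mem_range_self i)) _
  rwa [Finset.prod_pow_eq_pow_sum, ← Finsupp.degree_eq_sum] at h1

/-- assembling the components -/
theorem assemble {I : Ideal (MvPolynomial (Fin (n + 1)) k)} {F : MvPolynomial (Fin (n + 1)) k}
    (h1 : ∀ c : Fin (n + 1) →₀ ℕ, (∀ i, c i < p) → cmp p c F ∈ I)
    (h2 : ∀ c : Fin (n + 1) →₀ ℕ, (∀ i, c i < p) → c.degree < p → cmp p c F ∈ irr k n * I) :
    F ∈ irr k n ^ p * I ^ p := by
  rw [cmp_decomp (p := p) F]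
  apply Ideal.sum_mem
  intro f _
  rcases Nat.lt_or_ge (tf f).degree p with hlt | hge
  · apply Ideal.mul_mem_right
    rw [← mul_pow]
    exact Ideal.pow_mem_pow (h2 _ (tf_lt f) hlt) p
  · rw [mul_comm (irr k n ^ p) (I ^ p)]
    exact Ideal.mul_mem_mul (Ideal.pow_mem_pow (h1 _ (tf_lt f)) p)
      (Ideal.pow_le_pow_right hge (monomial_mem_irr (tf f)))

end

end Pool.Agent.TH308.HHp
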