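import Pool.Agent.TH308.HHp.Gen

/-!
Multipliers, and the divisibility of a power.
-/

set_option autoImplicit false

universe u

namespace Pool.Agent.TH308.HHp

open MvPolynomial Pool.Agent.H737R3 Pool.Agent.H737R3.Cont Pool.Agent.Chud Pool.Agent.TH501.HHF

section

variable {k : Type u} [Field k] {n s : ℕ}

theorem exists_lin (hn : 2 ≤ n) (v w : Fin (n + 1) → k) :
    ∃ l : MvPolynomial (Fin (n + 1)) k, Irreducible l ∧ l.IsHomogeneous 1 ∧ eval v l = 0 ∧
      eval w l = 0 := by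
  classical
  set M : Matrix (Fin 2) (Fin (n + 1)) k := Matrix.of ![v, w] with hM
  have h1 : LinearMap.ker (Matrix.mulVecLin M) ≠ ⊥ := by
    apply LinearMap.ker_ne_bot_of_finrank_lt
    simp only [Module.finrank_fin_fun]
    omega
  obtain ⟨a, ha, ha0⟩ := Submodule.exists_mem_ne_zero_of_ne_bot h1
  rw [LinearMap.mem_ker, Matrix.mulVecLin_apply] at ha
  have hv : ∑ j, v j * a j = 0 := by
    have := congrFun ha 0
    simpa [hM, Matrix.mulVec, dotProduct] using this
  have hw : ∑ j, w j * a j = 0 := by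
    have := congrFun ha 1
    simpa [hM, Matrix.mulVec, dotProduct] using this
  set l : MvPolynomial (Fin (n + 1)) k := ∑ j, C (a j) * X j with hl
  have hl1 : l.IsHomogeneous 1 := by
    rw [hl]
    apply IsHomogeneous.sum
    intro j _
    have := (isHomogeneous_C (Fin (n + 1)) (a j)).mul (isHomogeneous_X k j)
    rwa [zero_add] at this
  obtain ⟨j, hj⟩ : ∃ j, a j ≠ 0 := by
    by_contra hcon
    push Not at hcon
    exact ha0 (funext hcon)
  have hcj : coeff (Finsupp.single j 1) l = a j := by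
    rw [hl, coeff_sum, Finset.sum_eq_single j]
    · rw [coeff_C_mul, coeff_X, if_pos rfl, mul_one]
    · intro i _ hij
      rw [coeff_C_mul, coeff_X, if_neg, mul_zero]
      intro h
      exact hij (Finsupp.single_left_injective one_ne_zero h)
    · intro h
      exact absurd (Finset.mem_univ j) h
  have hl0 : l ≠ 0 := by
    intro h
    rw [h, coeff_zero] at hcj
    exact hj hcj.symm
  refine ⟨l, ?_, hl1, ?_, ?_⟩
  · apply irreducible_of_totalDegree_eq_one (hl1.totalDegree hl0)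
    intro x hx
    have h2 := hx (Finsupp.single j 1)
    rw [hcj] at h2
    exact isUnit_of_dvd_unit h2 (isUnit_iff_ne_zero.2 hj)
  · rw [hl, map_sum, ← hv]
    apply Finset.sum_congr rfl
    intro i _
    simp [mul_comm]
  · rw [hl, map_sum, ← hw]
    apply Finset.sum_congr rfl
    intro i _
    simp [mul_comm]

theorem exists_mult [Infinite k] (hn : 2 ≤ n) (P : Fin s → Fin (n + 1) → k)
    {F : MvPolynomial (Fin (n + 1)) k} (hF : F ≠ 0) (M : Fin s → ℕ) :
    ∃ (x : MvPolynomial (Fin (n + 1)) k) (δ : ℕ), x.IsHomogeneous δ ∧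
      (∀ i, x ∈ mI (P i) ^ (M i)) ∧ IsRelPrime F x := by
  classical
  obtain ⟨w, hw⟩ : ∃ w, eval w F ≠ 0 := by
    by_contra hcon
    push Not at hcon
    apply hF
    apply MvPolynomial.funext
    intro v
    rw [hcon v, map_zero]
  choose l h1 h2 h3 h4 using fun i => exists_lin hn (P i) w
  refine ⟨∏ i, l i ^ M i, ∑ i, 1 * M i, ?_, ?_, ?_⟩
  · apply IsHomogeneous.prod
    intro i _
    exact (h2 i).pow _
  · intro i
    refine Ideal.mem_of_dvd _ (Finset.dvd_prod_of_mem (fun i => l i ^ M i) (Finset.mem_univ i)) ?_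
    exact Ideal.pow_mem_pow (show l i ∈ mI (P i) from (RingHom.mem_ker).2 (h3 i)) _
  · apply IsRelPrime.prod_right
    intro i _
    apply IsRelPrime.pow_right
    refine IsRelPrime.symm ((h1 i).isRelPrime_iff_not_dvd.2 ?_)
    rintro ⟨r, hr⟩
    apply hw
    rw [hr, map_mul, h4 i, zero_mul]

theorem dvd_pow_pred {R : Type*} [CommRing R] [IsDomain R] [UniqueFactorizationMonoid R]
    {F ψ : R} {Q m : ℕ} (hF : F ≠ 0) (hfree : ∀ π, Prime π → ¬ π ^ (m + 1) ∣ F)
    (h : F ∣ ψ ^ Q) : F ∣ ψ ^ m := by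
  have key : ∀ x : R, x ≠ 0 → (∀ π, Prime π → ¬ π ^ (m + 1) ∣ x) → x ∣ ψ ^ Q → x ∣ ψ ^ m := by
    intro x
    refine UniqueFactorizationMonoid.induction_on_coprime
      (P := fun x : R => x ≠ 0 → (∀ π, Prime π → ¬ π ^ (m + 1) ∣ x) → x ∣ ψ ^ Q → x ∣ ψ ^ m)
      x ?_ ?_ ?_ ?_
    · intro h0
      exact absurd rfl h0
    · intro x hx _ _ _
      exact hx.dvd
    · intro π i hπ _ hf hd
      rcases Nat.eq_zero_or_pos i with rfl | hi
      · rw [pow_zero]
        exact one_dvd _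
      have h1 : i ≤ m := by
        by_contra hcon
        push Not at hcon
        exact hf π hπ (pow_dvd_pow π hcon)
      have h2 : π ∣ ψ := hπ.dvd_of_dvd_pow ((dvd_pow_self π hi.ne').trans hd)
      exact (pow_dvd_pow_of_dvd h2 i).trans (pow_dvd_pow ψ h1)
    · intro x y hxy hx hy h0 hf hd
      have hx0 := left_ne_zero_of_mul h0
      have hy0 := right_ne_zero_of_mul h0
      apply hxy.mul_dvd
      · exact hx hx0 (fun π hπ hd' => hf π hπ (hd'.trans (dvd_mul_right x y)))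
          ((dvd_mul_right x y).trans hd)
      · exact hy hy0 (fun π hπ hd' => hf π hπ (hd'.trans (dvd_mul_left y x)))
          ((dvd_mul_left y x).trans hd)
  exact key F hF hfree h

end

section

variable {k : Type u} [Field k] (p : ℕ) [Fact p.Prime] [CharP k p] [PerfectRing k p] {n s : ℕ}

/-- the general lemma, without multiplier -/
theorem gen' [Infinite k] (P : Fin s → Fin (n + 1) → k) (hP : ∀ i, P i ≠ 0) (W : Fin s → ℕ)
    (hn : 2 ≤ n) (E1 : ℕ) {d : ℕ} {F : MvPolynomial (Fin (n + 1)) k} (hF0 : F ≠ 0)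
    (hFd : F.IsHomogeneous d) (hF : ∀ i, F ∈ mI (P i) ^ (p ^ E1 * W i))
    {A : Ideal (MvPolynomial (Fin (n + 1)) k)} {g : MvPolynomial (Fin (n + 1)) k}
    (hI : (⨅ i, linI (P i) ^ (W i - (n - 1))) ≤ A ⊔ Ideal.span {g})
    (hA : ∀ x, g * x ∈ A → coeff 0 x = 0)
    {ψ : MvPolynomial (Fin (n + 1)) k} {ρ : ℕ} (hψ : ψ.IsHomogeneous ρ) (hρ : ρ < p ^ E1)
    {c : MvPolynomial (Fin (n + 1)) k}
    (hrel : c * F - g ^ (p ^ E1) * ψ ∈ froE p E1 A) :
    ∃ E, F ∣ ψ ^ (p ^ E) := by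
  obtain ⟨x, δ, hx1, hx2, hx3⟩ := exists_mult hn P hF0 (fun i => p ^ E1 * W i)
  obtain ⟨E, hE⟩ := gen p P hP W (by omega) E1 hFd hF hI hA hψ hρ hrel hx1 hx2
  exact ⟨E, hx3.dvd_of_dvd_mul_left hE⟩

end

end Pool.Agent.TH308.HHp
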